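import Pool.Agent.Helper68.BU.COIU
import Pool.Agent.Helper80.LD.COEw

/-!
# The inequalities along the ultrafilter, for slow coefficients
-/

set_option autoImplicit false
set_option linter.unusedSectionVars false

namespace Pool.Agent.SQ

open NumberField Filter Module MvPolynomial
open Pool.Agent.Helper64.Vojta (Pl nv sn above)
open Pool.Agent.V2
open Pool.Agent.Chart (fld dg crd hgt)

universe u

section

variable {k : Type u} [Field k] [NumberField k] {G : Type} [Group G] [Fintype G]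

private theorem ub_zero {D : SqG k G} : UB D (fun _ => 0) 0 := by
  intro η hη
  filter_upwards [D.H1.eventually_gt_atTop 0] with a h
  rw [zero_add]
  exact (mul_pos hη h).le

private theorem ub_add {D : SqG k G} {F F' : ℕ → ℝ} {L L' : ℝ} (h : UB D F L) (h' : UB D F' L') :
    UB D (fun a => F a + F' a) (L + L') := by
  intro η hη
  filter_upwards [h (η / 2) (half_pos hη), h' (η / 2) (half_pos hη)] with a h1 h2
  have h3 : (L + L' + η) * D.H a = (L + η / 2) * D.H a + (L' + η / 2) * D.H a := by ring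
  rw [h3]
  exact add_le_add h1 h2

private theorem ub_sum {D : SqG k G} {ι : Type*} (s : Finset ι) (F : ι → ℕ → ℝ) (L : ι → ℝ) (h : ∀ i ∈ s, UB D (F i) (L i)) :
    UB D (fun a => ∑ i ∈ s, F i a) (∑ i ∈ s, L i) := by
  classical
  induction s using Finset.induction_on with
  | empty =>
    simp only [Finset.sum_empty]
    exact ub_zero
  | insert i s hi ih =>
    simp only [Finset.sum_insert hi]
    exact ub_add (h i (Finset.mem_insert_self _ _)) (ih fun j hj => h j (Finset.mem_insert_of_mem hj))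

private theorem ub_mul {D : SqG k G} {F : ℕ → ℝ} {L c : ℝ} (hc : 0 ≤ c) (h : UB D F L) : UB D (fun a => c * F a) (c * L) := by
  rcases hc.eq_or_lt with rfl | hc
  · simp only [zero_mul]
    exact ub_zero
  · intro η hη
    filter_upwards [h (η / c) (div_pos hη hc)] with a h1
    have h2 : (c * L + η) * D.H a = c * ((L + η / c) * D.H a) := by
      field_simp
    rw [h2]
    exact mul_le_mul_of_nonneg_left h1 hc.le

private theorem ub_tendsto {D : SqG k G} {f : ℕ → ℝ} {L : ℝ} (h : Tendsto (fun a => f a / D.H a) (D.U : Filter ℕ) (nhds L)) :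
    UB D f L := by
  intro η hη
  filter_upwards [h.eventually (Metric.ball_mem_nhds L hη), D.H1.eventually_gt_atTop 0] with a h3 h4
  rw [Real.dist_eq, abs_lt] at h3
  rw [← div_le_iff₀ h4]
  linarith

variable {D : SqG k G} (F : GFG D) {N d q : ℕ} (y : ∀ a, Fin (N + 1) → D.L a) (hy : Ptg D y) (ζ : Fin (N + 1) → F.K)
  (hζ : ∀ j, ∀ᶠ a in (D.U : Filter ℕ), F.rp (ζ j) a = y a j) (cs : Fin q × Mns N d → slk F)
  (c : ℕ → Fin q × Mns N d → k) (hc : ∀ t, ∀ᶠ a in (D.U : Filter ℕ), (trs F).rp (cs t) a = c a t)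

include hy hζ hc

/-- the limits of the local values -/
private theorem lsl_tendsto (i : Fin q) (hi : aeval ζ (tfrm cs i) ≠ 0) (v : Pl k) (g : G) :
    Tendsto (fun a => gam (D.s a) (D.N a) (y a) d (tfrm (c a) i) v g / D.H a) (D.U : Filter ℕ)
      (nhds (Lsl F y ζ cs v g i)) := by
  have h1 := omg_tendsto F v (F.s g (aeval ζ (tfrm cs i))) ((map_ne_zero _).2 hi)
  have h2 := (cg_tendsto y hy v g).const_mul (d : ℝ)
  have h3 := h1.add h2
  refine h3.congr' ?_
  filter_upwards [F.rp_s g (aeval ζ (tfrm cs i)), rp_tfrm F y ζ hζ cs c hc i] with a h4 h5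
  rw [h4, h5]
  unfold gam
  ring

private theorem lsl_nonneg (i : Fin q) (hi : aeval ζ (tfrm cs i) ≠ 0) (v : Pl k) (g : G) : 0 ≤ Lsl F y ζ cs v g i :=
  pow_nonneg_s F y ζ hζ hy d v g _ (aeval_mem_pow F y ζ hζ _ (tfrm_hom cs i)) hi

private theorem lsl_congr (i : Fin q) (hi : aeval ζ (tfrm cs i) ≠ 0) (v : Pl k) (g g' : G)
    (h : ∀ a, gam (D.s a) (D.N a) (y a) d (tfrm (c a) i) v g = gam (D.s a) (D.N a) (y a) d (tfrm (c a) i) v g') :
    Lsl F y ζ cs v g i = Lsl F y ζ cs v g' i := by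
  refine tendsto_nhds_unique (lsl_tendsto F y hy ζ hζ cs c hc i hi v g) ?_
  simp only [h]
  exact lsl_tendsto F y hy ζ hζ cs c hc i hi v g'

end

/-- **The inequalities along the ultrafilter, with slow coefficients.** `Q c` has degree at most `M`. -/
theorem core_eu {k : Type u} [Field k] [NumberField k] {N n d : ℕ} (q : ℕ) (hd : 0 < d)
    (I : Ideal (MvPolynomial (Fin (N + 1)) k))
    [hIp : I.IsPrime] (hI : ∀ p ∈ I, ∀ m, homogeneousComponent m p ∈ I)
    (hdim : Algebra.trdeg k (MvPolynomial (Fin (N + 1)) k ⧸ I) = n + 1) {Ξ : Type} [Fintype Ξ] {θ : Ξ → ℝ}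
    (hθ : ∀ ξ, 0 ≤ θ ξ) (hθ1 : ∀ ξ, θ ξ ≤ 1) {ξ₁ : Ξ} (hξ₁ : θ ξ₁ = 1) {A₀ : ℝ} (hA : 0 < A₀) (hA1 : A₀ ≤ 1)
    {ε : ℝ} (hε : 0 < ε) :
    ∃ (M : ℕ) (Q : (Fin q × Mns N d → k) → MvPolynomial (Fin (N + 1)) k),
      (∀ c, Q c ∉ I ∧ ∃ e ≤ M, (Q c).IsHomogeneous e) ∧
      ∀ {G : Type} [Group G] [Fintype G] {D : SqG k G} (y : ∀ a, Fin (N + 1) → D.L a), Ptg D y →
        (∀ a, ∀ p ∈ I, aeval (y a) p = 0) → ∀ (c : ℕ → Fin q × Mns N d → k),
        (∀ t, SlowG D fun a => algebraMap k (D.L a) (c a t)) → (∀ a, aeval (y a) (Q (c a)) ≠ 0) →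
        ∀ (S : Finset (Pl k)) (T0 : Pl k → Finset (Fin q)), (∀ v ∈ S, n + 1 ≤ (T0 v).card) →
        (∀ a, ∀ v ∈ S, ∀ J ⊆ T0 v, J.card = n + 1 → ∀ x : Fin (N + 1) → AlgebraicClosure k, (∀ p ∈ I, aeval x p = 0) →
          (∀ i ∈ J, aeval x (tfrm (c a) i) = 0) → x = 0) →
        (∀ a, ∀ v ∈ S, ∀ i ∈ T0 v, aeval (y a) (tfrm (c a) i) ≠ 0) →
        (∀ (Hs : Subgroup G), (∀ a, ∀ h ∈ Hs, ∀ j, D.s a h (y a j) = y a j) → ∀ (g₁ : Pl k → G)
          (Cv Dv : Pl k → Finset G),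
          (∀ a, ∀ v ∈ S, ∀ u ∈ Cv v, ∀ z : D.L a, (∀ h ∈ Hs, D.s a h z = z) →
            D.N a v (D.s a (u * g₁ v) z) = D.N a v (D.s a (g₁ v) z)) →
          (∀ a, ∀ v ∈ S, ∀ u ∈ Dv v, ∀ (g : G) (z : D.L a), (∀ h ∈ Hs, D.s a h z = z) →
            D.N a v (D.s a (u * g) z) = D.N a v (D.s a g z)) →
          ∀ {r' : ℕ} (ρ : Fin r' → G), (∀ g, ∃! j, (ρ j)⁻¹ * g ∈ Hs) →
          ∀ (Rp : Pl k → Finset (Fin r')) (cl : Pl k → Fin r' → Fin r') (ξ : Pl k → Fin r' → Ξ),
          (∀ v ∈ S, ∀ j, cl v j ∈ Rp v ∧ ξ v (cl v j) = ξ v j) →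
          (∀ v ∈ S, ∀ j ∈ Rp v, A₀ ≤ Eq n (θ (ξ v j)) -
            (1 - ((Finset.univ.filter fun j' => cl v j' = j).card : ℝ) / r') * θ (ξ v j)) →
          (∀ a, ∀ v ∈ S, ∀ j, ∀ z : D.L a, (∀ h ∈ Hs, D.s a h z = z) →
            D.N a v (D.s a (ρ (cl v j)) z) = D.N a v (D.s a (ρ j) z)) → ∀ ty : Pl k → Fin 3,
          ∀ᶠ a in (D.U : Filter ℕ), ∑ v ∈ S,
            (if ty v = 0 then (Fintype.card G : ℝ) ^ 2 * ∑ j ∈ Rp v, ((Eq n (θ (ξ v j)) -
                (1 - ((Finset.univ.filter fun j' => cl v j' = j).card : ℝ) / r') * θ (ξ v j)) *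
                ∑ i ∈ T0 v, gam (D.s a) (D.N a) (y a) d (tfrm (c a) i) v (ρ j))
              else if ty v = 1 then (Cv v).card * Nat.card Hs / (n + 1) *
                ∑ i ∈ T0 v, gam (D.s a) (D.N a) (y a) d (tfrm (c a) i) v (g₁ v)
              else (Dv v).card / (n + 1) * ∑ g, ∑ i ∈ T0 v, gam (D.s a) (D.N a) (y a) d (tfrm (c a) i) v g) ≤
            Fintype.card G * (d + ε) * D.H a) ∧
        (∀ (H : Subgroup G), H.IsSubnormal → (∀ n, ∀ h ∈ H, ∀ j, D.s n h (y n j) = y n j) →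
          ∀ᶠ a in (D.U : Filter ℕ), ∑ v ∈ S, ∑ g, ∑ i ∈ T0 v, gam (D.s a) (D.N a) (y a) d (tfrm (c a) i) v g ≤
            H.index * (n + 1) * (d + ε) * D.H a) := by
  classical
  have hd' : (0 : ℝ) < d := by exact_mod_cast hd
  have hn1 : (0 : ℝ) < n + 1 := by positivity
  obtain ⟨u, hu⟩ : ∃ u : ℝ, u = d / (d + ε / 2) := ⟨_, rfl⟩
  have hu0 : 0 < u := by
    rw [hu]
    positivity
  have hu1 : u < 1 := by
    rw [hu, div_lt_one (by positivity)]
    linarith
  have hud : u * (d + ε / 2) = d := by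
    rw [hu]
    field_simp
  obtain ⟨ε₁, hε₁⟩ : ∃ ε₁ : ℝ, ε₁ = (1 - u) * A₀ := ⟨_, rfl⟩
  have hε₁0 : 0 < ε₁ := by
    rw [hε₁]
    exact mul_pos (by linarith) hA
  have hε₁1 : u ≤ 1 - ε₁ := by
    have : (1 - u) * A₀ ≤ (1 - u) * 1 := mul_le_mul_of_nonneg_left hA1 (by linarith)
    linarith
  obtain ⟨Mq, Q, hQ, hcore⟩ := core_is q hd I hI hdim hθ hθ1 hξ₁ hε₁0
  refine ⟨Mq, Q, hQ, ?_⟩
  intro G _ _ D y hy hyI c hcs hyQ S T0 hT0 hgp hyf
  obtain ⟨F⟩ := ger_g D
  obtain ⟨ζ, hζ⟩ := exists_xig F y hy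
  obtain ⟨cs, hc⟩ := exists_cs F c hcs
  have hne : ∀ v ∈ S, ∀ i ∈ T0 v, aeval ζ (tfrm cs i) ≠ 0 := by
    intro v hv i hi h
    obtain ⟨a, h1, h2⟩ := ((rp_tfrm F y ζ hζ cs c hc i).and (rp_zero68 F)).exists
    rw [h, h2] at h1
    exact hyf a v hv i hi h1.symm
  obtain ⟨L, hL⟩ : ∃ L : Pl k → G → Fin q → ℝ, L = fun v g i => Lsl F y ζ cs v g i := ⟨_, rfl⟩
  have hL' : ∀ v g i, Lsl F y ζ cs v g i = L v g i := fun v g i => by rw [hL]
  have hL0 : ∀ v ∈ S, ∀ g, ∀ i ∈ T0 v, 0 ≤ L v g i := by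
    intro v hv g i hi
    rw [← hL']
    exact lsl_nonneg F y hy ζ hζ cs c hc i (hne v hv i hi) v g
  have hLu : ∀ v ∈ S, ∀ g, ∀ i ∈ T0 v, UB D (fun a => gam (D.s a) (D.N a) (y a) d (tfrm (c a) i) v g) (L v g i) := by
    intro v hv g i hi
    rw [← hL']
    exact ub_tendsto (lsl_tendsto F y hy ζ hζ cs c hc i (hne v hv i hi) v g)
  have hLc : ∀ v ∈ S, ∀ g g', ∀ i ∈ T0 v,
      (∀ a, gam (D.s a) (D.N a) (y a) d (tfrm (c a) i) v g = gam (D.s a) (D.N a) (y a) d (tfrm (c a) i) v g') →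
      L v g i = L v g' i := by
    intro v hv g g' i hi h
    rw [← hL', ← hL']
    exact lsl_congr F y hy ζ hζ cs c hc i (hne v hv i hi) v g g' h
  obtain ⟨Λ, hΛ⟩ : ∃ Λ : Pl k → G → ℝ, Λ = fun v g => ∑ i ∈ T0 v, L v g i := ⟨_, rfl⟩
  have hΛ0 : ∀ v ∈ S, ∀ g, 0 ≤ Λ v g := by
    intro v hv g
    rw [hΛ]
    exact Finset.sum_nonneg fun i hi => hL0 v hv g i hi
  have hΛu : ∀ v ∈ S, ∀ g, UB D (fun a => ∑ i ∈ T0 v, gam (D.s a) (D.N a) (y a) d (tfrm (c a) i) v g) (Λ v g) := by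
    intro v hv g
    rw [hΛ]
    exact ub_sum _ _ _ fun i hi => hLu v hv g i hi
  obtain ⟨h1, h1t⟩ := hcore F y hy hyI ζ hζ cs c hc hyQ S T0 hT0 hgp hyf (fun v hv g i hi => by
    rw [hL']
    exact hL0 v hv g i hi)
  simp only [hL'] at h1 h1t
  have hc0 : (0 : ℝ) < Fintype.card G := by exact_mod_cast Fintype.card_pos
  refine ⟨?_, ?_⟩
  · intro Hs hH g₁ Cv Dv hCv hDv r' ρ hρ Rp cl ξ hcl hAj hclN ty
    obtain ⟨A', hA'⟩ : ∃ A' : Pl k → Fin r' → ℝ, A' = fun v j => Eq n (θ (ξ v j)) -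
        (1 - ((Finset.univ.filter fun j' => cl v j' = j).card : ℝ) / r') * θ (ξ v j) := ⟨_, rfl⟩
    have hA'' : ∀ v j, Eq n (θ (ξ v j)) -
        (1 - ((Finset.univ.filter fun j' => cl v j' = j).card : ℝ) / r') * θ (ξ v j) = A' v j := fun v j => by rw [hA']
    have hAA : ∀ v ∈ S, ∀ j ∈ Rp v, A₀ ≤ A' v j := fun v hv j hj => by
      rw [← hA'']
      exact hAj v hv j hj
    have hA'u : ∀ v ∈ S, ∀ j ∈ Rp v, u * A' v j ≤ (1 - ε₁) * Eq n (θ (ξ v j)) -
        (1 - ((Finset.univ.filter fun j' => cl v j' = j).card : ℝ) / r') * θ (ξ v j) := by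
      intro v hv j hj
      have h3 : ε₁ * Eq n (θ (ξ v j)) ≤ ε₁ := by
        have := mul_le_mul_of_nonneg_left ((FinQ.Eq_le (n := n) (hθ (ξ v j)) (hθ1 (ξ v j))).trans (hθ1 _)) hε₁0.le
        linarith
      have h4 : ε₁ ≤ (1 - u) * A' v j := by
        rw [hε₁]
        exact mul_le_mul_of_nonneg_left (hAA v hv j hj) (by linarith)
      have h5 : (1 - ε₁) * Eq n (θ (ξ v j)) -
          (1 - ((Finset.univ.filter fun j' => cl v j' = j).card : ℝ) / r') * θ (ξ v j) = A' v j - ε₁ * Eq n (θ (ξ v j)) := by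
        rw [← hA'']
        ring
      rw [h5]
      linarith
    have hN := h1 Hs hH (fun v => ty v ≠ 0) (fun v => if ty v = 1 then Cv v else Dv v)
      (fun v => if ty v = 1 then Finset.univ.filter fun g => (g₁ v)⁻¹ * g ∈ Hs else Finset.univ) (by
      intro a v hv hl u' hu' g hg z hz
      have hu2 : u' ∈ (if ty v = 1 then Cv v else Dv v) := hu'
      have hg2 : g ∈ (if ty v = 1 then Finset.univ.filter fun g => (g₁ v)⁻¹ * g ∈ Hs else Finset.univ) := hg
      by_cases h1 : ty v = 1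
      · rw [if_pos h1] at hu2 hg2
        have hg' : (g₁ v)⁻¹ * g ∈ Hs := (Finset.mem_filter.1 hg2).2
        have e0 : D.s a g z = D.s a (g₁ v) z := by
          have e1 : g = g₁ v * ((g₁ v)⁻¹ * g) := (mul_inv_cancel_left _ _).symm
          conv_lhs => rw [e1, map_mul]
          show D.s a (g₁ v) (D.s a ((g₁ v)⁻¹ * g) z) = _
          rw [hz _ hg']
        have e2 : D.s a (u' * g) z = D.s a (u' * g₁ v) z := by
          rw [map_mul, map_mul]
          show D.s a u' (D.s a g z) = D.s a u' (D.s a (g₁ v) z)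
          rw [e0]
        rw [e0, e2]
        exact hCv a v hv u' hu2 z hz
      · rw [if_neg h1] at hu2
        exact hDv a v hv u' hu2 g z hz) ρ hρ Rp cl ξ (fun v hv _ j => ⟨(hcl v hv j).1, (hcl v hv j).2,
          Finset.sum_congr rfl fun i hi => hLc v hv _ _ i hi fun a =>
            gam_cl80 (hH a) fun z hz => hclN a v hv j z hz⟩) (fun a v hv _ j z hz => hclN a v hv j z hz)
    obtain ⟨X, hX⟩ : ∃ X : ℝ, X = ∑ v ∈ S, (if ty v = 0 then (Fintype.card G : ℝ) ^ 2 * ∑ j ∈ Rp v, (A' v j * Λ v (ρ j))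
        else if ty v = 1 then (Cv v).card * Nat.card Hs / (n + 1) * Λ v (g₁ v)
        else (Dv v).card / (n + 1) * ∑ g, Λ v g) := ⟨_, rfl⟩
    have hub : UB D (fun a => ∑ v ∈ S, (if ty v = 0 then (Fintype.card G : ℝ) ^ 2 * ∑ j ∈ Rp v, (A' v j *
                ∑ i ∈ T0 v, gam (D.s a) (D.N a) (y a) d (tfrm (c a) i) v (ρ j))
              else if ty v = 1 then (Cv v).card * Nat.card Hs / (n + 1) *
                ∑ i ∈ T0 v, gam (D.s a) (D.N a) (y a) d (tfrm (c a) i) v (g₁ v)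
              else (Dv v).card / (n + 1) * ∑ g, ∑ i ∈ T0 v, gam (D.s a) (D.N a) (y a) d (tfrm (c a) i) v g)) X := by
      rw [hX]
      refine ub_sum _ _ _ fun v hv => ?_
      by_cases h0 : ty v = 0
      · simp only [h0, if_true]
        exact ub_mul (by positivity) (ub_sum _ _ _ fun j hj => ub_mul (hA.le.trans (hAA v hv j hj)) (hΛu v hv (ρ j)))
      · by_cases h1 : ty v = 1
        · simp only [h1, one_ne_zero, if_false, if_true]
          exact ub_mul (div_nonneg (mul_nonneg (Nat.cast_nonneg _) (Nat.cast_nonneg _)) hn1.le) (hΛu v hv (g₁ v))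
        · simp only [h0, h1, if_false]
          exact ub_mul (div_nonneg (Nat.cast_nonneg _) hn1.le) (ub_sum _ _ _ fun g _ => hΛu v hv g)
    have hXN : u * X ≤ Fintype.card G * d := by
      refine le_trans ?_ hN
      rw [hX, Finset.mul_sum]
      refine Finset.sum_le_sum fun v hv => ?_
      have hΛv : ∀ g, ∑ i ∈ T0 v, L v g i = Λ v g := fun g => by rw [hΛ]
      simp only [hΛv]
      by_cases h0 : ty v = 0
      · rw [if_pos h0, if_neg (show ¬ ty v ≠ 0 from fun h => h h0), mul_left_comm, Finset.mul_sum]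
        refine mul_le_mul_of_nonneg_left (Finset.sum_le_sum fun j hj => ?_) (sq_nonneg (Fintype.card G : ℝ))
        rw [← mul_assoc]
        exact mul_le_mul_of_nonneg_right (hA'u v hv j hj) (hΛ0 v hv _)
      · rw [if_neg h0, if_pos h0, FinQ.Eq_one]
        by_cases h1 : ty v = 1
        · have e3 : ∑ g ∈ (if ty v = 1 then Finset.univ.filter fun g => (g₁ v)⁻¹ * g ∈ Hs else Finset.univ),
              (1 - ε₁) * (1 / ((n : ℝ) + 1)) * Λ v g = Nat.card Hs * ((1 - ε₁) * (1 / ((n : ℝ) + 1)) * Λ v (g₁ v)) := by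
            rw [if_pos h1]
            have e4 : ∀ g ∈ Finset.univ.filter (fun g => (g₁ v)⁻¹ * g ∈ Hs), (1 - ε₁) * (1 / ((n : ℝ) + 1)) * Λ v g =
                (1 - ε₁) * (1 / ((n : ℝ) + 1)) * Λ v (g₁ v) := by
              intro g hg
              have hg' : (g₁ v)⁻¹ * g ∈ Hs := (Finset.mem_filter.1 hg).2
              congr 1
              rw [hΛ]
              refine Finset.sum_congr rfl fun i hi => hLc v hv _ _ i hi fun a => ?_
              have h6 := gam_mul (s := D.s a) (M := D.N a) (y := y a) (d := d) (f := tfrm (c a) i) (v := v) (hH a) hg' (g₁ v)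
              rwa [mul_inv_cancel_left] at h6
            have e5 : (Finset.univ.filter fun g => (g₁ v)⁻¹ * g ∈ Hs).card = Nat.card Hs := by
              rw [Nat.card_eq_fintype_card, Fintype.card_subtype]
              refine Finset.card_bij' (fun g _ => (g₁ v)⁻¹ * g) (fun h _ => g₁ v * h) ?_ ?_ ?_ ?_
              · intro g hg
                rw [Finset.mem_filter] at hg ⊢
                exact ⟨Finset.mem_univ _, hg.2⟩
              · intro h hh
                rw [Finset.mem_filter] at hh ⊢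
                refine ⟨Finset.mem_univ _, ?_⟩
                rw [inv_mul_cancel_left]
                exact hh.2
              · intro g _
                exact mul_inv_cancel_left _ _
              · intro h _
                exact inv_mul_cancel_left _ _
            rw [Finset.sum_congr rfl e4, Finset.sum_const, nsmul_eq_mul, e5]
          rw [if_pos h1, e3, if_pos h1]
          have h5 : 0 ≤ ((Cv v).card : ℝ) * (Nat.card Hs * ((1 / ((n : ℝ) + 1)) * Λ v (g₁ v))) := by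
            exact mul_nonneg (Nat.cast_nonneg _) (mul_nonneg (Nat.cast_nonneg _)
              (mul_nonneg (one_div_nonneg.2 hn1.le) (hΛ0 v hv (g₁ v))))
          have h6 := mul_le_mul_of_nonneg_right hε₁1 h5
          refine le_trans (le_of_eq ?_) (h6.trans (le_of_eq ?_)) <;> ring
        · rw [if_neg h1, if_neg h1, if_neg h1, ← Finset.mul_sum]
          have h5 : 0 ≤ ((Dv v).card : ℝ) * ((1 / ((n : ℝ) + 1)) * ∑ g, Λ v g) := by
            exact mul_nonneg (Nat.cast_nonneg _) (mul_nonneg (one_div_nonneg.2 hn1.le)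
              (Finset.sum_nonneg fun g _ => hΛ0 v hv g))
          have h6 := mul_le_mul_of_nonneg_right hε₁1 h5
          refine le_trans (le_of_eq ?_) (h6.trans (le_of_eq ?_)) <;> ring
    have hXc : X ≤ Fintype.card G * (d + ε / 2) := by
      refine le_of_mul_le_mul_left (hXN.trans (le_of_eq ?_)) hu0
      rw [mul_left_comm, hud]
    simp only [hA'']
    filter_upwards [hub (Fintype.card G * (ε / 2)) (by positivity), D.H1.eventually_gt_atTop 0] with a h3 h4
    refine h3.trans (mul_le_mul_of_nonneg_right ?_ h4.le)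
    linarith
  · intro H hHs hxH
    have h2 := h1t H hHs hxH
    obtain ⟨X, hX⟩ : ∃ X : ℝ, X = ∑ v ∈ S, ∑ g, Λ v g := ⟨_, rfl⟩
    have hub : UB D (fun a => ∑ v ∈ S, ∑ g, ∑ i ∈ T0 v, gam (D.s a) (D.N a) (y a) d (tfrm (c a) i) v g) X := by
      rw [hX]
      exact ub_sum _ _ _ fun v hv => ub_sum _ _ _ fun g _ => hΛu v hv g
    have hX0 : 0 ≤ X := by
      rw [hX]
      exact Finset.sum_nonneg fun v hv => Finset.sum_nonneg fun g _ => hΛ0 v hv g
    have hXN : u * X ≤ (n + 1) * (H.index * d) := by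
      have h3 : ∑ v ∈ S, ∑ g, ((1 - ε₁) * Eq n 1 * ∑ i ∈ T0 v, L v g i) = (1 - ε₁) * (1 / ((n : ℝ) + 1)) * X := by
        rw [FinQ.Eq_one, hX, Finset.mul_sum]
        refine Finset.sum_congr rfl fun v _ => ?_
        rw [Finset.mul_sum]
        refine Finset.sum_congr rfl fun g _ => ?_
        rw [hΛ]
      rw [h3] at h2
      have h4 := mul_le_mul_of_nonneg_left h2 hn1.le
      have h5 : ((n : ℝ) + 1) * ((1 - ε₁) * (1 / ((n : ℝ) + 1)) * X) = (1 - ε₁) * X := by
        field_simp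
      rw [h5] at h4
      exact (mul_le_mul_of_nonneg_right hε₁1 hX0).trans h4
    have hXc : X ≤ H.index * (n + 1) * (d + ε / 2) := by
      refine le_of_mul_le_mul_left (hXN.trans (le_of_eq ?_)) hu0
      have h6 : u * (H.index * (n + 1) * (d + ε / 2)) = H.index * (n + 1) * (u * (d + ε / 2)) := by ring
      rw [h6, hud]
      ring
    have hi0 : (0 : ℝ) < H.index := by
      exact_mod_cast Nat.pos_of_ne_zero H.index_ne_zero_of_finite
    filter_upwards [hub (H.index * (n + 1) * (ε / 2)) (by positivity), D.H1.eventually_gt_atTop 0] with a h3 h4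
    refine h3.trans (mul_le_mul_of_nonneg_right ?_ h4.le)
    linarith

end Pool.Agent.SQ
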