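import Pool.Agent.Helper68.BU.Defs3
import Pool.Agent.Helper80.LD.NUMw

set_option autoImplicit false

namespace Pool.Agent.SQ

open NumberField Filter Module MvPolynomial
open Pool.Agent.Helper64.Vojta (Pl nv sn above nv_pos nv_nonneg nv_mul)
open Pool.Agent.Helper52.Vojta (ldeg)
open Pool.Agent.V2

universe u

section

variable {k : Type u} [Field k] [NumberField k] {N : ℕ}

theorem cn_ge {L : Type u} [Field L] [NumberField L] [Algebra k L] (g : MvPolynomial (Fin N) k) {m : Fin N →₀ ℕ}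
    (hm : m ∈ g.support) (w : Pl L) : nv w (algebraMap k L (g.coeff m)) ≤ cn g w :=
  le_ciSup (f := fun m : g.support => nv w (algebraMap k L (g.coeff m))) (Set.finite_range _).bddAbove ⟨m, hm⟩

omit [NumberField k] in
private theorem nonempty_supp {g : MvPolynomial (Fin N) k} (hg : g ≠ 0) : Nonempty g.support := by
  obtain ⟨m, hm⟩ := Finset.nonempty_iff_ne_empty.2 (fun h => hg (MvPolynomial.support_eq_empty.1 h))
  exact ⟨⟨m, hm⟩⟩

theorem cn_above {L : Type u} [Field L] [NumberField L] [Algebra k L] {g : MvPolynomial (Fin N) k} (hg : g ≠ 0) {ν : Pl k}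
    {w : Pl L} (hw : w ∈ above L ν) : cn g w = cn g ν ^ ldeg ν w := by
  have := nonempty_supp hg
  unfold cn
  rw [Real.iSup_pow (fun i => nv_nonneg _ _)]
  congr 1
  funext i
  exact Pool.Agent.Helper52.Vojta.nv_above hw _

theorem sum_cn_above {L : Type u} [Field L] [NumberField L] [Algebra k L] {g : MvPolynomial (Fin N) k} (hg : g ≠ 0) (ν : Pl k) :
    ∑ w ∈ above L ν, Real.log (cn g w) = finrank k L * Real.log (cn g ν) := by
  rw [← Pool.Agent.Helper52.Vojta.sum_ldeg (L' := L) ν]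
  push_cast
  rw [Finset.sum_mul]
  refine Finset.sum_congr rfl fun w hw => ?_
  rw [cn_above hg hw, Real.log_pow]

/-- the height of a form, relative to a coefficient -/
theorem gsum_cn {g : MvPolynomial (Fin N) k} {m : Fin N →₀ ℕ} (hm : m ∈ g.support) :
    (FinS fun ν : Pl k => Real.log (cn g ν) - Real.log (nv ν (g.coeff m))) ∧
    (∀ ν : Pl k, 0 ≤ Real.log (cn g ν) - Real.log (nv ν (g.coeff m))) ∧
    Height.logHeight (fun m : g.support => g.coeff m) =
      gsum fun ν : Pl k => Real.log (cn g ν) - Real.log (nv ν (g.coeff m)) := by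
  classical
  obtain ⟨n, ⟨e⟩⟩ : ∃ n, Nonempty (Fin n ≃ g.support) := ⟨_, ⟨(Fintype.equivFin g.support).symm⟩⟩
  have hb : g.coeff m ≠ 0 := MvPolynomial.mem_support_iff.1 hm
  let c : Fin n → k := fun j => (g.coeff m)⁻¹ * g.coeff (e j)
  have hc1 : c (e.symm ⟨m, hm⟩) = 1 := by
    show (g.coeff m)⁻¹ * g.coeff (e (e.symm ⟨m, hm⟩)) = 1
    rw [Equiv.apply_symm_apply]
    exact inv_mul_cancel₀ hb
  have hc0 : c ≠ 0 := fun h => by
    rw [h] at hc1
    exact zero_ne_one hc1
  have h1 : Height.logHeight (fun m : g.support => g.coeff m) = Height.logHeight c := by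
    rw [← Height.logHeight_comp_equiv e (fun m : g.support => g.coeff m)]
    exact (Height.logHeight_smul_eq_logHeight _ (inv_ne_zero hb)).symm
  have h2 : ∀ ν : Pl k, sn ν c = (nv ν (g.coeff m))⁻¹ * cn g ν := by
    intro ν
    show ⨆ j, nv ν ((g.coeff m)⁻¹ * g.coeff (e j)) = _
    have h3 : cn g ν = ⨆ j, nv ν (g.coeff (e j)) := by
      unfold cn
      exact (e.iSup_comp (g := fun m : g.support => nv ν (algebraMap k k (g.coeff m)))).symm
    rw [h3, Real.mul_iSup_of_nonneg (inv_nonneg.2 (nv_nonneg _ _))]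
    refine iSup_congr fun j => ?_
    rw [nv_mul, Pool.Agent.Helper64.Vojta.nv_inv]
  have h4 : (fun ν : Pl k => Real.log (cn g ν) - Real.log (nv ν (g.coeff m))) = fun ν => Real.log (sn ν c) := by
    funext ν
    have h5 : 0 < cn g ν := (nv_pos ν hb).trans_le (cn_ge (L := k) g hm ν)
    rw [h2, Real.log_mul (inv_ne_zero (nv_pos ν hb).ne') h5.ne', Real.log_inv]
    ring
  have h5 : ∀ ν : Pl k, 1 ≤ sn ν c := by
    intro ν
    have := Pool.Agent.Helper64.Vojta.le_sn ν c (e.symm ⟨m, hm⟩)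
    rwa [hc1, Pool.Agent.Helper64.Vojta.nv_one] at this
  have h6 : FinS fun v : Pl k => Real.log (sn v c) :=
    Pool.Agent.Helper64.Vojta.log_support _ (Pool.Agent.Helper64.Vojta.fin_support_sn hc0)
  refine ⟨by rwa [h4], fun ν => ?_, ?_⟩
  · have h7 : Real.log (cn g ν) - Real.log (nv ν (g.coeff m)) = Real.log (sn ν c) := congrFun h4 ν
    rw [h7]
    exact Real.log_nonneg (h5 ν)
  · rw [h1, h4]
    exact Pool.Agent.Helper64.Vojta.logHeight_eq hc0

/-- the sum over a finite set of places, relative to a coefficient -/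
theorem sum_cn_le {g : MvPolynomial (Fin N) k} {m : Fin N →₀ ℕ} (hm : m ∈ g.support) (S : Finset (Pl k)) :
    ∑ ν ∈ S, (Real.log (cn g ν) - Real.log (nv ν (g.coeff m))) ≤ Height.logHeight (fun m : g.support => g.coeff m) := by
  obtain ⟨h1, h2, h3⟩ := gsum_cn hm
  rw [h3]
  exact sum_le_gsum h1 h2 S

theorem logHeight_support_nonneg (g : MvPolynomial (Fin N) k) : 0 ≤ Height.logHeight (fun m : g.support => g.coeff m) :=
  Height.logHeight_nonneg _

end

end Pool.Agent.SQ
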