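import Pool.Agent.Helper68.BU.CORP
import Pool.Agent.Helper61.BU.GAs

/-!
# The inequality for the limits of the local values, for slow coefficients
-/

set_option autoImplicit false
set_option linter.unusedSectionVars false

namespace Pool.Agent.SQ

open NumberField Filter Module MvPolynomial
open Pool.Agent.Helper64.Vojta (Pl nv sn above)
open Pool.Agent.V2
open Pool.Agent.Chart (fld dg crd hgt)

universe u

/-- the sum over the index set -/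
private theorem ksum68 {G : Type} [Fintype G] [DecidableEq G] {P : Type u} (S : Finset P) {r : ℕ} (lin : P → Prop) [DecidablePred lin]
    (T : P → Finset G) (R : P → Finset (Fin r)) (a : P → ℝ) (c : ℝ) (F : ↥S × (G ⊕ Fin r) → ℝ) :
    ∑ l : ↥S × (G ⊕ Fin r), (Sum.elim (fun g => if lin l.1 ∧ g ∈ T l.1 then a l.1 else 0)
      (fun j => if ¬ lin l.1 ∧ j ∈ R l.1 then c else 0) l.2) * F l =
      ∑ v : S, if lin v then a v * ∑ g ∈ T v, F (v, Sum.inl g) else c * ∑ j ∈ R v, F (v, Sum.inr j) := by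
  rw [Fintype.sum_prod_type]
  refine Finset.sum_congr rfl fun v _ => ?_
  rw [Fintype.sum_sum_type]
  simp only [Sum.elim_inl, Sum.elim_inr]
  by_cases hv : lin v
  · simp only [hv, not_true_eq_false, false_and, true_and, if_true, if_false, zero_mul, Finset.sum_const_zero, add_zero, ite_mul]
    rw [Finset.mul_sum, ← Finset.sum_filter]
    refine Finset.sum_congr ?_ fun _ _ => rfl
    ext g
    simp
  · simp only [hv, not_false_eq_true, false_and, true_and, if_false, zero_mul, Finset.sum_const_zero, zero_add, ite_mul]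
    rw [Finset.mul_sum, ← Finset.sum_filter]
    refine Finset.sum_congr ?_ fun _ _ => rfl
    ext g
    simp

/-- **The inequalities.** The exceptional forms `Q c` have bounded degree. -/
theorem core_is {k : Type u} [Field k] [NumberField k] {N n d : ℕ} (q : ℕ) (hd : 0 < d)
    (I : Ideal (MvPolynomial (Fin (N + 1)) k)) [hIp : I.IsPrime]
    (hI : ∀ p ∈ I, ∀ m, homogeneousComponent m p ∈ I)
    (hdim : Algebra.trdeg k (MvPolynomial (Fin (N + 1)) k ⧸ I) = n + 1) {Ξ : Type} [Fintype Ξ] {θ : Ξ → ℝ}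
    (hθ : ∀ ξ, 0 ≤ θ ξ) (hθ1 : ∀ ξ, θ ξ ≤ 1) {ξ₁ : Ξ} (hξ₁ : θ ξ₁ = 1) {ε : ℝ} (hε : 0 < ε) :
    ∃ (M : ℕ) (Q : (Fin q × Mns N d → k) → MvPolynomial (Fin (N + 1)) k),
      (∀ c, Q c ∉ I ∧ ∃ e ≤ M, (Q c).IsHomogeneous e) ∧
      ∀ {G : Type} [Group G] [Fintype G] {D : SqG k G} (F : GFG D) (y : ∀ a, Fin (N + 1) → D.L a), Ptg D y →
        (∀ a, ∀ p ∈ I, aeval (y a) p = 0) → ∀ (ζ : Fin (N + 1) → F.K),
        (∀ j, ∀ᶠ a in (D.U : Filter ℕ), F.rp (ζ j) a = y a j) →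
        ∀ (cs : Fin q × Mns N d → slk F) (c : ℕ → Fin q × Mns N d → k),
        (∀ t, ∀ᶠ a in (D.U : Filter ℕ), (trs F).rp (cs t) a = c a t) → (∀ a, aeval (y a) (Q (c a)) ≠ 0) →
        ∀ (S : Finset (Pl k)) (T0 : Pl k → Finset (Fin q)), (∀ v ∈ S, n + 1 ≤ (T0 v).card) →
        (∀ a, ∀ v ∈ S, ∀ J ⊆ T0 v, J.card = n + 1 → ∀ x : Fin (N + 1) → AlgebraicClosure k, (∀ p ∈ I, aeval x p = 0) →
          (∀ i ∈ J, aeval x (tfrm (c a) i) = 0) → x = 0) →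
        (∀ a, ∀ v ∈ S, ∀ i ∈ T0 v, aeval (y a) (tfrm (c a) i) ≠ 0) →
        (∀ v ∈ S, ∀ g, ∀ i ∈ T0 v, 0 ≤ Lsl F y ζ cs v g i) →
        (∀ (Hs : Subgroup G), (∀ a, ∀ h ∈ Hs, ∀ j, D.s a h (y a j) = y a j) →
          ∀ (lin : Pl k → Prop) [DecidablePred lin] (Gd T : Pl k → Finset G),
          (∀ a, ∀ v ∈ S, lin v → ∀ u ∈ Gd v, ∀ g ∈ T v, ∀ z : D.L a, (∀ h ∈ Hs, D.s a h z = z) →
            D.N a v (D.s a (u * g) z) = D.N a v (D.s a g z)) →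
          ∀ {r : ℕ} (ρ : Fin r → G), (∀ g, ∃! j, (ρ j)⁻¹ * g ∈ Hs) →
          ∀ (Rp : Pl k → Finset (Fin r)) (cl : Pl k → Fin r → Fin r) (ξ : Pl k → Fin r → Ξ),
          (∀ v ∈ S, ¬ lin v → ∀ j, cl v j ∈ Rp v ∧ ξ v (cl v j) = ξ v j ∧
            ∑ i ∈ T0 v, Lsl F y ζ cs v (ρ (cl v j)) i = ∑ i ∈ T0 v, Lsl F y ζ cs v (ρ j) i) →
          (∀ a, ∀ v ∈ S, ¬ lin v → ∀ j, ∀ z : D.L a, (∀ h ∈ Hs, D.s a h z = z) →
            D.N a v (D.s a (ρ (cl v j)) z) = D.N a v (D.s a (ρ j) z)) →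
          ∑ v ∈ S, (if lin v then ((Gd v).card : ℝ) * ∑ g ∈ T v, ((1 - ε) * Eq n 1 * ∑ i ∈ T0 v, Lsl F y ζ cs v g i) else
            (Fintype.card G : ℝ) ^ 2 * ∑ j ∈ Rp v, (((1 - ε) * Eq n (θ (ξ v j)) -
              (1 - ((Finset.univ.filter fun j' => cl v j' = j).card : ℝ) / r) * θ (ξ v j)) *
                ∑ i ∈ T0 v, Lsl F y ζ cs v (ρ j) i)) ≤
            Fintype.card G * d) ∧
        (∀ (H : Subgroup G), H.IsSubnormal → (∀ n, ∀ h ∈ H, ∀ j, D.s n h (y n j) = y n j) →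
          ∑ v ∈ S, ∑ g, ((1 - ε) * Eq n 1 * ∑ i ∈ T0 v, Lsl F y ζ cs v g i) ≤ H.index * d) := by
  classical
  obtain ⟨Mq, Q, hQ, hcore⟩ := core_pre q hd I hI hdim θ hθ hθ1 hε
  refine ⟨Mq, Q, hQ, ?_⟩
  intro G _ _ D F y hy hyI ζ hζ cs c hc hyQ S T0 hT0 hgp hyf hL0
  refine ⟨?_, ?_⟩
  · intro Hs hH lin _ Gd T hC r ρ hρ Rp cl ξ hcl hclN
    obtain ⟨m, V', hm, hV', hpos, R, e, σ, heV, heI, heS, hσB, hmain⟩ := hcore F y hy hyI ζ hζ cs c hc hyQ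
      (Λ := ↥S × (G ⊕ Fin r)) (fun l => T0 l.1) (fun l => hT0 _ l.1.2) (fun a l => hgp a _ l.1.2)
      (fun a l => hyf a _ l.1.2)
      (fun l => l.1) (fun l => Sum.elim id ρ l.2) (fun l => Sum.elim (fun _ => ξ₁) (ξ l.1) l.2)
      (fun l => Sum.elim (fun g => if lin l.1 ∧ g ∈ T l.1 then ((Gd l.1).card : ℝ) else 0)
        (fun j => if ¬ lin l.1 ∧ j ∈ Rp l.1 then (Fintype.card G : ℝ) ^ 2 else 0) l.2) (fun l => by
        rcases l with ⟨v, g | j⟩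
        · show (0 : ℝ) ≤ if lin v ∧ g ∈ T v then ((Gd v).card : ℝ) else 0
          split_ifs
          · exact Nat.cast_nonneg _
          · exact le_rfl
        · show (0 : ℝ) ≤ if ¬ lin v ∧ j ∈ Rp v then (Fintype.card G : ℝ) ^ 2 else 0
          split_ifs
          · positivity
          · exact le_rfl)
    have hδ : 0 < d * m := Nat.mul_pos hd hm
    have hmR : (0 : ℝ) < m := by exact_mod_cast hm
    have hD0 : (0 : ℝ) < finrank (slk F) V' := by exact_mod_cast hpos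
    rw [ksum68 S lin T Rp (fun v => ((Gd v).card : ℝ)) ((Fintype.card G : ℝ) ^ 2),
      ksum68 S lin T Rp (fun v => ((Gd v).card : ℝ)) ((Fintype.card G : ℝ) ^ 2)] at hmain
    simp only [Sum.elim_inl, Sum.elim_inr, id, hξ₁] at hmain
    -- families for all places
    have hf1 : ∀ (v : Pl k) (g : G), ∃ (n : ℕ) (e₁ : Fin n → F.K) (σ₁ : Fin n → ℝ), ∀ h : v ∈ S,
        (∀ i, e₁ i ∈ V') ∧ LinearIndependent (slk F) e₁ ∧
        (∀ i, σ₁ i ≤ omg F v (F.s g (e₁ i)) + (d * m : ℕ) * cg D y v g) ∧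
        ∑ i, σ₁ i = ∑ i, σ (⟨v, h⟩, Sum.inl g) i := by
      intro v g
      by_cases h : v ∈ S
      · exact ⟨R (⟨v, h⟩, Sum.inl g), e (⟨v, h⟩, Sum.inl g), σ (⟨v, h⟩, Sum.inl g), fun _ =>
          ⟨heV _, heI _, heS (⟨v, h⟩, Sum.inl g), rfl⟩⟩
      · exact ⟨0, Fin.elim0, Fin.elim0, fun h' => absurd h' h⟩
    choose n₁ e₁ σ₁ he₁ using hf1
    have hf2 : ∀ (v : Pl k) (j : Fin r), ∃ (n : ℕ) (e₁ : Fin n → F.K) (σ₁ : Fin n → ℝ), ∀ h : v ∈ S,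
        (∀ i, e₁ i ∈ V') ∧ LinearIndependent (slk F) e₁ ∧
        (∀ i, σ₁ i ≤ omg F v (F.s (ρ j) (e₁ i)) + (d * m : ℕ) * cg D y v (ρ j)) ∧
        (∀ i, σ₁ i ≤ m * θ (ξ v j) * ∑ i ∈ T0 v, Lsl F y ζ cs v (ρ j) i) ∧
        ∑ i, σ₁ i = ∑ i, σ (⟨v, h⟩, Sum.inr j) i := by
      intro v j
      by_cases h : v ∈ S
      · exact ⟨R (⟨v, h⟩, Sum.inr j), e (⟨v, h⟩, Sum.inr j), σ (⟨v, h⟩, Sum.inr j), fun _ =>
          ⟨heV _, heI _, heS (⟨v, h⟩, Sum.inr j), fun i => hσB (⟨v, h⟩, Sum.inr j) i, rfl⟩⟩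
      · exact ⟨0, Fin.elim0, Fin.elim0, fun h' => absurd h' h⟩
    choose n₂ e₂ σ₂ he₂ using hf2
    have hver := germs_ws F y hy ζ hζ hδ S Hs hH lin Gd T hC ρ hρ
      (fun v j => m * θ (ξ v j) * ∑ i ∈ T0 v, Lsl F y ζ cs v (ρ j) i) (fun v hv j => mul_nonneg (mul_nonneg hmR.le (hθ _))
        (Finset.sum_nonneg fun i hi => hL0 v hv _ i hi)) Rp cl
      (fun v hv hl j => ⟨(hcl v hv hl j).1, by rw [(hcl v hv hl j).2.1, (hcl v hv hl j).2.2]⟩) hclN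
      V' hV' n₁ e₁ (fun v hv g => (he₁ v g hv).2.1)
      (fun v hv g => (he₁ v g hv).1) σ₁ (fun v hv g => (he₁ v g hv).2.2.1)
      n₂ e₂ (fun v hv j => (he₂ v j hv).2.1)
      (fun v hv j => (he₂ v j hv).1) σ₂ (fun v hv j => (he₂ v j hv).2.2.1) (fun v hv j => (he₂ v j hv).2.2.2.1)
    rw [← Finset.sum_coe_sort S] at hver ⊢
    obtain ⟨w, hw⟩ : ∃ w : Pl k → Fin r → ℝ, w = fun v j =>
      (1 - ((Finset.univ.filter fun j' => cl v j' = j).card : ℝ) / r) := ⟨_, rfl⟩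
    have hw' : ∀ v j, (1 - ((Finset.univ.filter fun j' => cl v j' = j).card : ℝ) / r) = w v j := fun v j => by rw [hw]
    simp only [hw'] at hver ⊢
    -- comparison
    have e1 : ∀ v : S, (if lin v then ((Gd v).card : ℝ) * ∑ g ∈ T v, ∑ i, σ₁ v g i else
        (Fintype.card G : ℝ) ^ 2 * ∑ j ∈ Rp v, (∑ i, σ₂ v j i -
          w v j * (m * θ (ξ v j) * ∑ i ∈ T0 v, Lsl F y ζ cs v (ρ j) i) * finrank (slk F) V')) =
        (if lin v then ((Gd v).card : ℝ) * ∑ g ∈ T v, ∑ i, σ (v, Sum.inl g) i else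
          (Fintype.card G : ℝ) ^ 2 * ∑ j ∈ Rp v, ∑ i, σ (v, Sum.inr j) i) -
        finrank (slk F) V' * (m * if lin v then 0 else (Fintype.card G : ℝ) ^ 2 *
          ∑ j ∈ Rp v, w v j * θ (ξ v j) * ∑ i ∈ T0 v, Lsl F y ζ cs v (ρ j) i) := by
      intro v
      by_cases hv : lin v
      · rw [if_pos hv, if_pos hv, if_pos hv, mul_zero, mul_zero, sub_zero]
        congr 1
        exact Finset.sum_congr rfl fun g _ => (he₁ v g v.2).2.2.2
      · rw [if_neg hv, if_neg hv, if_neg hv, Finset.sum_sub_distrib, mul_sub]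
        congr 1
        · congr 1
          exact Finset.sum_congr rfl fun j _ => (he₂ v j v.2).2.2.2.2
        · have e4 : ∀ j, w v j * (m * θ (ξ v j) * ∑ i ∈ T0 v, Lsl F y ζ cs v (ρ j) i) * finrank (slk F) V' =
              finrank (slk F) V' * m * (w v j * θ (ξ v j) * ∑ i ∈ T0 v, Lsl F y ζ cs v (ρ j) i) := fun j => by ring
          rw [Finset.sum_congr rfl fun j _ => e4 j, ← Finset.mul_sum]
          ring
    rw [Finset.sum_congr rfl fun v _ => e1 v, Finset.sum_sub_distrib, ← Finset.mul_sum, ← Finset.mul_sum] at hver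
    have e2 : ∀ v : S, (if lin v then ((Gd v).card : ℝ) * ∑ g ∈ T v, ((1 - ε) * Eq n 1 * ∑ i ∈ T0 v, Lsl F y ζ cs v g i) else
            (Fintype.card G : ℝ) ^ 2 * ∑ j ∈ Rp v, (((1 - ε) * Eq n (θ (ξ v j)) - w v j * θ (ξ v j)) *
              ∑ i ∈ T0 v, Lsl F y ζ cs v (ρ j) i)) =
        (if lin v then ((Gd v).card : ℝ) * ∑ g ∈ T v, ((1 - ε) * Eq n 1 * ∑ i ∈ T0 v, Lsl F y ζ cs v g i) else
          (Fintype.card G : ℝ) ^ 2 * ∑ j ∈ Rp v, ((1 - ε) * Eq n (θ (ξ v j)) * ∑ i ∈ T0 v, Lsl F y ζ cs v (ρ j) i)) -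
        (if lin v then 0 else (Fintype.card G : ℝ) ^ 2 * ∑ j ∈ Rp v, w v j * θ (ξ v j) *
          ∑ i ∈ T0 v, Lsl F y ζ cs v (ρ j) i) := by
      intro v
      by_cases hv : lin v
      · rw [if_pos hv, if_pos hv, if_pos hv, sub_zero]
      · rw [if_neg hv, if_neg hv, if_neg hv, ← mul_sub, ← Finset.sum_sub_distrib]
        congr 1
        exact Finset.sum_congr rfl fun j _ => by ring
    rw [Finset.sum_congr rfl fun v _ => e2 v, Finset.sum_sub_distrib]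
    refine le_of_mul_le_mul_left ?_ (mul_pos hD0 hmR)
    push_cast at hver
    have e3 : (finrank (slk F) V' : ℝ) * m * (Fintype.card G * d) = Fintype.card G * finrank (slk F) V' * (d * m) := by ring
    rw [e3, mul_sub, mul_assoc, mul_assoc]
    have hmain' : (finrank (slk F) V' : ℝ) * (m * ∑ v : S, (if lin v then ((Gd v).card : ℝ) *
        ∑ g ∈ T v, ((1 - ε) * Eq n 1 * ∑ i ∈ T0 v, Lsl F y ζ cs v g i) else
          (Fintype.card G : ℝ) ^ 2 * ∑ j ∈ Rp v, ((1 - ε) * Eq n (θ (ξ v j)) * ∑ i ∈ T0 v, Lsl F y ζ cs v (ρ j) i))) ≤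
        ∑ v : S, (if lin v then ((Gd v).card : ℝ) * ∑ g ∈ T v, ∑ i, σ (v, Sum.inl g) i else
          (Fintype.card G : ℝ) ^ 2 * ∑ j ∈ Rp v, ∑ i, σ (v, Sum.inr j) i) := hmain
    linarith
  · intro H hHs hxH
    have fq : Fintype (G ⧸ H) := Fintype.ofFinite _
    obtain ⟨m, V', hm, hV', hpos, R, e, σ, heV, heI, heS, -, hmain⟩ := hcore F y hy hyI ζ hζ cs c hc hyQ
      (Λ := ↥S × G) (fun l => T0 l.1) (fun l => hT0 _ l.1.2) (fun a l => hgp a _ l.1.2) (fun a l => hyf a _ l.1.2)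
      (fun l => l.1) (fun l => l.2) (fun _ => ξ₁) (fun _ => 1) (fun _ => zero_le_one)
    have hδ : 0 < d * m := Nat.mul_pos hd hm
    have hmR : (0 : ℝ) < m := by exact_mod_cast hm
    have hD0 : (0 : ℝ) < finrank (slk F) V' := by exact_mod_cast hpos
    simp only [one_mul, hξ₁] at hmain
    rw [Fintype.sum_prod_type, Fintype.sum_prod_type] at hmain
    have hf1 : ∀ (v : Pl k) (g : G), ∃ (n : ℕ) (e₁ : Fin n → F.K) (σ₁ : Fin n → ℝ), ∀ h : v ∈ S,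
        (∀ i, e₁ i ∈ V') ∧ LinearIndependent (slk F) e₁ ∧
        (∀ i, σ₁ i ≤ omg F v (F.s g (e₁ i)) + (d * m : ℕ) * cg D y v g) ∧
        ∑ i, σ₁ i = ∑ i, σ (⟨v, h⟩, g) i := by
      intro v g
      by_cases h : v ∈ S
      · exact ⟨R (⟨v, h⟩, g), e (⟨v, h⟩, g), σ (⟨v, h⟩, g), fun _ => ⟨heV _, heI _, heS (⟨v, h⟩, g), rfl⟩⟩
      · exact ⟨0, Fin.elim0, Fin.elim0, fun h' => absurd h' h⟩
    choose n₁ e₁ σ₁ he₁ using hf1
    have hver := germs_ts F y hy ζ hζ hδ hHs hxH S V' hV' n₁ e₁ (fun v hv g => (he₁ v g hv).2.1)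
      (fun v hv g => (he₁ v g hv).1) σ₁ (fun v hv g => (he₁ v g hv).2.2.1)
    rw [← Finset.sum_coe_sort S] at hver ⊢
    have e1 : ∀ v : S, ∑ g, ∑ i, σ₁ v g i = ∑ g, ∑ i, σ (v, g) i := fun v =>
      Finset.sum_congr rfl fun g _ => (he₁ v g v.2).2.2.2
    rw [Finset.sum_congr rfl fun v _ => e1 v] at hver
    refine le_of_mul_le_mul_left ?_ (mul_pos hD0 hmR)
    push_cast at hver
    have e3 : (finrank (slk F) V' : ℝ) * m * (H.index * d) = H.index * finrank (slk F) V' * (d * m) := by ring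
    rw [e3, mul_assoc]
    exact hmain.trans hver

end Pool.Agent.SQ
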