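import Pool.Agent.Helper68.ZS.HNF

/-!
# Subspaces of maximal slope and linear maps
-/

set_option autoImplicit false

namespace Pool.Agent.ZS

open Module

universe u v

section

variable {k V : Type*} [Field k] [AddCommGroup V] [Module k V] [FiniteDimensional k V]

/-- The image of a subspace of maximal slope under a linear map which does not vanish on it. -/
theorem slope_ev {A : Type*} [Fintype A] (W : A → Submodule k V) (ρ : A → ℝ) (U : Submodule k V)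
    (hU : ∀ E : Submodule k V, (∑ a, ρ a * finrank k ↥(E ⊓ W a)) * finrank k U ≤
      (∑ a, ρ a * finrank k ↥(U ⊓ W a)) * finrank k E)
    {V' : Type*} [AddCommGroup V'] [Module k V'] (ev : V →ₗ[k] V') (hne : ¬ U ≤ LinearMap.ker ev) :
    0 < finrank k (U.map ev) ∧ finrank k (U.map ev) * ∑ a, ρ a * (finrank k (W a) : ℝ) ≤
      finrank k V * ∑ a, ρ a * (finrank k ((U ⊓ W a).map ev) : ℝ) := by
  have hne : U.map ev ≠ ⊥ := by
    intro h1
    refine hne fun q hq => ?_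
    have h2 : ev q ∈ U.map ev := Submodule.mem_map_of_mem hq
    rw [h1, Submodule.mem_bot] at h2
    exact h2
  have hD' : 0 < finrank k (U.map ev) := Nat.pos_of_ne_zero fun h => hne (Submodule.finrank_eq_zero.1 h)
  refine ⟨hD', ?_⟩
  have hU0 : (0 : ℝ) < finrank k U := by
    have h1 : finrank k (U.map ev) ≤ finrank k U := Submodule.finrank_map_le ev U
    exact_mod_cast hD'.trans_le h1
  have h1 := hU (U ⊓ LinearMap.ker ev)
  have h2 := hU ⊤
  have h3 : ∑ a, ρ a * (finrank k ((U ⊓ W a).map ev) : ℝ) =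
      ∑ a, ρ a * (finrank k ↥(U ⊓ W a) : ℝ) - ∑ a, ρ a * (finrank k ↥(U ⊓ LinearMap.ker ev ⊓ W a) : ℝ) := by
    rw [← Finset.sum_sub_distrib]
    refine Finset.sum_congr rfl fun a _ => ?_
    rw [map_dim, inf_right_comm]
    ring
  have h4 : ∑ a, ρ a * (finrank k ↥((⊤ : Submodule k V) ⊓ W a) : ℝ) = ∑ a, ρ a * (finrank k (W a) : ℝ) :=
    Finset.sum_congr rfl fun a _ => by rw [top_inf_eq]
  rw [h4, finrank_top] at h2
  rw [h3, map_dim]
  obtain ⟨x, hx⟩ : ∃ x : ℝ, x = ∑ a, ρ a * (finrank k ↥(U ⊓ W a) : ℝ) := ⟨_, rfl⟩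
  obtain ⟨y, hy⟩ : ∃ y : ℝ, y = ∑ a, ρ a * (finrank k ↥(U ⊓ LinearMap.ker ev ⊓ W a) : ℝ) := ⟨_, rfl⟩
  obtain ⟨z, hz⟩ : ∃ z : ℝ, z = ∑ a, ρ a * (finrank k (W a) : ℝ) := ⟨_, rfl⟩
  obtain ⟨u, hu⟩ : ∃ u : ℝ, u = finrank k U := ⟨_, rfl⟩
  obtain ⟨n, hn⟩ : ∃ n : ℝ, n = finrank k ↥(U ⊓ LinearMap.ker ev) := ⟨_, rfl⟩
  obtain ⟨d, hd⟩ : ∃ d : ℝ, d = finrank k V := ⟨_, rfl⟩
  rw [← hx, ← hy, ← hu, ← hn] at h1
  rw [← hx, ← hz, ← hu, ← hd] at h2
  rw [← hx, ← hy, ← hz, ← hu, ← hn, ← hd]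
  rw [← hu] at hU0
  have hnu : n ≤ u := by
    rw [hn, hu]
    exact_mod_cast Submodule.finrank_mono (inf_le_left : U ⊓ LinearMap.ker ev ≤ U)
  have hd0 : 0 ≤ d := by
    rw [hd]
    exact Nat.cast_nonneg _
  refine le_of_mul_le_mul_right ?_ hU0
  calc (u - n) * z * u = (u - n) * (z * u) := by ring
    _ ≤ (u - n) * (x * d) := mul_le_mul_of_nonneg_left h2 (by linarith)
    _ = d * (x * u - x * n) := by ring
    _ ≤ d * (x * u - y * u) := mul_le_mul_of_nonneg_left (by linarith) hd0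
    _ = d * (x - y) * u := by ring

/-- Independent families `p a`, and values `s` on some of them: families in the image of a subspace of maximal slope. -/
theorem hns {A : Type*} [Fintype A] (R : A → ℕ) (p : ∀ a, Fin (R a) → V) (hp : ∀ a, LinearIndependent k (p a))
    {V' : Type*} [AddCommGroup V'] [Module k V'] (ev : V →ₗ[k] V')
    (hU : ∀ ρ : (Σ a, Finset (Fin (R a))) → ℝ, ∃ U : Submodule k V, ¬ U ≤ LinearMap.ker ev ∧
      ∀ E : Submodule k V, (∑ w, ρ w * finrank k ↥(E ⊓ Submodule.span k (p w.1 '' (w.2 : Set (Fin (R w.1)))))) * finrank k U ≤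
        (∑ w, ρ w * finrank k ↥(U ⊓ Submodule.span k (p w.1 '' (w.2 : Set (Fin (R w.1)))))) * finrank k E)
    {Λ : Type*} [Fintype Λ] (j : Λ → A) (κ : Λ → ℝ) (s : ∀ l, Fin (R (j l)) → ℝ) (hs : ∀ l t, 0 ≤ s l t) :
    ∃ V₀ : Submodule k V', V₀ ≤ LinearMap.range ev ∧ 0 < finrank k V₀ ∧
      ∃ (n : Λ → ℕ) (e : ∀ l, Fin (n l) → V) (σ : ∀ l, Fin (n l) → ℝ),
        (∀ l i, ev (e l i) ∈ V₀) ∧ (∀ l, LinearIndependent k fun i => ev (e l i)) ∧
        (∀ l i, e l i ∈ Submodule.span k {z | ∃ t, z = p (j l) t ∧ σ l i ≤ s l t}) ∧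
        (∀ l i, ∃ t, σ l i = s l t) ∧
        finrank k V₀ * ∑ l, κ l * ∑ t, s l t ≤ finrank k V * ∑ l, κ l * ∑ i, σ l i := by
  classical
  let W : (Σ a, Finset (Fin (R a))) → Submodule k V := fun z => Submodule.span k (p z.1 '' (z.2 : Set (Fin (R z.1))))
  have hfl := fun l => flag (p (j l)) (hp (j l)) (s l) (hs l)
  choose B x _ hBs hBe using hfl
  let ρ : (Σ a : A, Finset (Fin (R a))) → ℝ := fun z =>
    ∑ l, ∑ i ∈ Finset.range (R (j l)), if z = ⟨j l, B l i⟩ then κ l * x l i else 0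
  have hρ : ∀ X : (Σ a : A, Finset (Fin (R a))) → ℝ, ∑ z, ρ z * X z =
      ∑ l, κ l * ∑ i ∈ Finset.range (R (j l)), x l i * X ⟨j l, B l i⟩ := by
    intro X
    simp only [ρ, Finset.sum_mul]
    rw [Finset.sum_comm]
    refine Finset.sum_congr rfl fun l _ => ?_
    rw [Finset.sum_comm, Finset.mul_sum]
    refine Finset.sum_congr rfl fun i _ => ?_
    simp only [ite_mul, zero_mul, Finset.sum_ite_eq', Finset.mem_univ, if_true]
    ring
  obtain ⟨U, hUk, hU⟩ := hU ρ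
  obtain ⟨hpos, hmain⟩ := slope_ev W ρ U hU ev hUk
  have hBe' := fun l => hBe l U ev
  choose n e σ heU heI heS hσ hσs using hBe'
  refine ⟨U.map ev, ?_, hpos, n, e, σ, fun l i => Submodule.mem_map_of_mem (heU l i), heI, heS, hσ, ?_⟩
  · rintro _ ⟨v, -, rfl⟩
    exact LinearMap.mem_range_self ev v
  · rw [hρ, hρ] at hmain
    have h1 : ∀ l, ∑ i ∈ Finset.range (R (j l)), x l i * (finrank k (W ⟨j l, B l i⟩) : ℝ) = ∑ t, s l t := hBs
    have h2 : ∀ l, ∑ i ∈ Finset.range (R (j l)), x l i * (finrank k ((U ⊓ W ⟨j l, B l i⟩).map ev) : ℝ) = ∑ i, σ l i :=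
      fun l => (hσs l).symm
    simp only [h1, h2] at hmain
    exact hmain

end

end Pool.Agent.ZS
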