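import Pool.Agent.Helper21.BU.Bas1
import Pool.Agent.Helper21.BU.SELa
import Pool.Agent.Helper67.SQ4.EFXq
import Pool.Agent.Helper68.BU.HNS
import Pool.Agent.Helper42.SQ.OMs

/-!
# The inequality for the limits of the local values, over the slow germs
-/

set_option autoImplicit false
set_option linter.unusedSectionVars false

namespace Pool.Agent.SQ

open NumberField Filter Module MvPolynomial
open Pool.Agent.Helper64.Vojta (Pl nv sn above)
open Pool.Agent.V2
open Pool.Agent.Chart (fld dg crd hgt)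

universe u

/-- the space spanned by some vectors of a family -/
noncomputable def Wsl {k : Type*} [Field k] {N n d q δ D' : ℕ} {I : Ideal (MvPolynomial (Fin (N + 1)) k)} (𝔅 : Bas I δ (D' + 1))
    {Ξ : Type} (φ : Ξ × (Fin (n + 1) → Fin q) → Fml n N) {R : Type*} [CommRing R] [Algebra k R] (c : Fin q × Mns N d → R)
    (w : Σ z, Finset (Fin (φ z).R)) : Submodule R (Fin (D' + 1) → R) :=
  Submodule.span R ((fun t => 𝔅.crd ((φ w.1).pol (fun i => tfrm c (w.1.2 i)) t)) '' (w.2 : Set (Fin (φ w.1).R)))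

section

variable {k : Type u} [Field k] [NumberField k] {G : Type} [Group G] [Fintype G] {D : SqG k G} (F : GFG D)

/-- the limit of the local values -/
noncomputable def Lsl {N d q : ℕ} (y : ∀ a, Fin (N + 1) → D.L a) (ξ : Fin (N + 1) → F.K) (cs : Fin q × Mns N d → slk F)
    (v : Pl k) (g : G) (i : Fin q) : ℝ :=
  omg F v (F.s g (aeval ξ (tfrm cs i))) + d * cg D y v g

private theorem omg_one68 (v : Pl k) : omg F v 1 = 0 := by
  have h := (omg_RV F v).alg 1 one_ne_zero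
  rwa [map_one] at h

private theorem omg_pow68 (v : Pl k) (x : F.K) (hx : x ≠ 0) (n : ℕ) : omg F v (x ^ n) = n * omg F v x := by
  induction n with
  | zero => rw [pow_zero, omg_one68, Nat.cast_zero, zero_mul]
  | succ n ih =>
    rw [pow_succ, (omg_RV F v).mul _ _ (pow_ne_zero _ hx) hx, ih]
    push_cast
    ring

private theorem omg_prod68 (v : Pl k) {ι : Type*} (s : Finset ι) (x : ι → F.K) (hx : ∀ i ∈ s, x i ≠ 0) :
    omg F v (∏ i ∈ s, x i) = ∑ i ∈ s, omg F v (x i) := by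
  classical
  induction s using Finset.induction_on with
  | empty => rw [Finset.prod_empty, Finset.sum_empty, omg_one68]
  | insert a s ha ih =>
    rw [Finset.prod_insert ha, Finset.sum_insert ha, (omg_RV F v).mul _ _ (hx a (Finset.mem_insert_self _ _))
      (Finset.prod_ne_zero_iff.2 fun i hi => hx i (Finset.mem_insert_of_mem hi)), ih fun i hi => hx i (Finset.mem_insert_of_mem hi)]

/-- a germ of a constant form -/
private theorem aeval_mem_k68 {N : ℕ} (ξ : Fin (N + 1) → F.K) (p : MvPolynomial (Fin (N + 1)) k) {δ : ℕ} (hp : p.IsHomogeneous δ)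
    (h : ∀ (p : MvPolynomial (Fin (N + 1)) (slk F)), p.IsHomogeneous δ → aeval ξ p ∈ (Submodule.span (slk F) (Set.range ξ)) ^ δ) :
    aeval ξ p ∈ (Submodule.span (slk F) (Set.range ξ)) ^ δ := by
  have h1 := h (MvPolynomial.map (algebraMap k (slk F)) p) (hp.map _)
  rwa [aeval_map_algebraMap] at h1

variable {N n d q m D' : ℕ} {I : Ideal (MvPolynomial (Fin (N + 1)) k)}

/-- the value of a product -/
private theorem pol_eval68 (ξ : Fin (N + 1) → F.K) (φ : Fml n N) (f : Fin (n + 1) → MvPolynomial (Fin (N + 1)) (slk F))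
    (t : Fin φ.R) : aeval ξ (φ.pol f t) = (∏ i, aeval ξ (f i) ^ φ.α t i) * ∏ j, ξ j ^ φ.μ t j := by
  unfold Fml.pol
  rw [map_mul, map_prod, aeval_monomial, map_one, one_mul, Finsupp.prod_fintype _ _ fun i => pow_zero _]
  congr 1
  exact Finset.prod_congr rfl fun i _ => map_pow _ _ _

/-- **The inequality.** `U` of maximal slope for every weight which does not vanish at `ξ`: a subspace of the forms of degree
`d * m`, evaluated at `ξ`, with independent families and lower bounds of their values. -/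
theorem core0_s (𝔅 : Bas I (d * m) (D' + 1)) {Ξ : Type} [Fintype Ξ] (θ : Ξ → ℝ) (hθ : ∀ x, 0 ≤ θ x) {ε : ℝ}
    (φ : Ξ × (Fin (n + 1) → Fin q) → Fml n N) (hφ : ∀ z, (φ z).deg d m) (y : ∀ a, Fin (N + 1) → D.L a) (hy : Ptg D y)
    (ξ : Fin (N + 1) → F.K) (hξ : ∀ j, ∀ᶠ a in (D.U : Filter ℕ), F.rp (ξ j) a = y a j) (hξI : ∀ p ∈ I, aeval ξ p = 0)
    (cs : Fin q × Mns N d → slk F)
    (hli : ∀ z, LinearIndependent (slk F) fun t => 𝔅.crd ((φ z).pol (fun i => tfrm cs (z.2 i)) t))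
    (hU : ∀ ρ : (Σ z, Finset (Fin (φ z).R)) → ℝ, ∃ U : Submodule (slk F) (Fin (D' + 1) → slk F),
      ¬ U ≤ kerS F (fun b => aeval ξ (𝔅.B b)) ∧
      ∀ E : Submodule (slk F) (Fin (D' + 1) → slk F), (∑ w, ρ w * finrank (slk F) ↥(E ⊓ Wsl 𝔅 φ cs w)) * finrank (slk F) U ≤
        (∑ w, ρ w * finrank (slk F) ↥(U ⊓ Wsl 𝔅 φ cs w)) * finrank (slk F) E)
    {Λ : Type*} [Fintype Λ] (v : Λ → Pl k) (g : Λ → G) (ty : Λ → Ξ) (j : Λ → Fin (n + 1) → Fin q)
    (hne : ∀ l i, aeval ξ (tfrm cs (j l i)) ≠ 0)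
    (hest : ∀ l i, (1 - ε) * (m * Eq n (θ (ty l))) * ((D' + 1 : ℕ) : ℝ) ≤
      ∑ t, min (θ (ty l) * m) ((φ (ty l, j l)).α t i : ℝ)) (κ : Λ → ℝ) (hκ : ∀ l, 0 ≤ κ l) :
    ∃ V' : Submodule (slk F) F.K, V' ≤ (Submodule.span (slk F) (Set.range ξ)) ^ (d * m) ∧ 0 < finrank (slk F) V' ∧
      ∃ (R : Λ → ℕ) (e : ∀ l, Fin (R l) → F.K) (σ : ∀ l, Fin (R l) → ℝ),
        (∀ l i, e l i ∈ V') ∧ (∀ l, LinearIndependent (slk F) (e l)) ∧
        (∀ l i, σ l i ≤ omg F (v l) (F.s (g l) (e l i)) + (d * m : ℕ) * cg D y (v l) (g l)) ∧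
        (∀ l i, σ l i ≤ m * θ (ty l) * ∑ i, Lsl F y ξ cs (v l) (g l) (j l i)) ∧
        finrank (slk F) V' * (m * ∑ l, κ l * ((1 - ε) * Eq n (θ (ty l)) * ∑ i, Lsl F y ξ cs (v l) (g l) (j l i))) ≤
          ∑ l, κ l * ∑ i, σ l i := by
  classical
  let L : ∀ l, Fin (n + 1) → ℝ := fun l i => Lsl F y ξ cs (v l) (g l) (j l i)
  have hL0 : ∀ l i, 0 ≤ L l i := fun l i => pow_nonneg_s F y ξ hξ hy d (v l) (g l) _
    (aeval_mem_pow F y ξ hξ _ (tfrm_hom cs (j l i))) (hne l i)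
  have hS0 : ∀ l, 0 ≤ ∑ i, L l i := fun l => Finset.sum_nonneg fun i _ => hL0 l i
  let β : Fin (D' + 1) → F.K := fun b => aeval ξ (𝔅.B b)
  let ev : (Fin (D' + 1) → slk F) →ₗ[slk F] F.K := Fintype.linearCombination (slk F) β
  let p : ∀ z : Ξ × (Fin (n + 1) → Fin q), Fin (φ z).R → Fin (D' + 1) → slk F := fun z t =>
    𝔅.crd ((φ z).pol (fun i => tfrm cs (z.2 i)) t)
  have hph : ∀ z t, ((φ z).pol (fun i => tfrm cs (z.2 i)) t).IsHomogeneous (d * m) := fun z t =>
    pol_hom (φ z) (hφ z) _ (fun i => tfrm_hom cs _) t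
  have hev : ∀ z t, ev (p z t) = aeval ξ ((φ z).pol (fun i => tfrm cs (z.2 i)) t) := by
    intro z t
    rw [𝔅.crd_eval ξ hξI _ (hph z t)]
    exact Fintype.linearCombination_apply (slk F) β (p z t)
  -- the values
  let s₁ : ∀ l, Fin (φ (ty l, j l)).R → ℝ := fun l t => ∑ i, (φ (ty l, j l)).α t i * L l i
  have hs₁ : ∀ l t, 0 ≤ s₁ l t := fun l t => Finset.sum_nonneg fun i _ => mul_nonneg (Nat.cast_nonneg _) (hL0 l i)
  let s : ∀ l, Fin (φ (ty l, j l)).R → ℝ := fun l t => min (m * θ (ty l) * ∑ i, L l i) (s₁ l t)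
  have hs0 : ∀ l t, 0 ≤ s l t := fun l t =>
    le_min (mul_nonneg (mul_nonneg (Nat.cast_nonneg _) (hθ _)) (hS0 l)) (hs₁ l t)
  obtain ⟨V₀, hV₀, hpos, n', e, σ, heV, heI, heS, hσ, hmain⟩ := Pool.Agent.ZS.hns (fun z => (φ z).R) p hli ev
    hU (fun l => (ty l, j l)) κ s hs0
  refine ⟨V₀, ?_, hpos, n', fun l i => ev (e l i), σ, heV, heI, fun l i => ?_, fun l i => ?_, ?_⟩
  · refine hV₀.trans ?_
    rintro _ ⟨w, rfl⟩
    rw [Fintype.linearCombination_apply]
    refine Submodule.sum_mem _ fun b _ => Submodule.smul_mem _ _ ?_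
    exact aeval_mem_k68 F ξ _ (𝔅.hom b) fun p hp => aeval_mem_pow F y ξ hξ p hp
  · -- values
    have h1 : Submodule.span (slk F) {z | ∃ t, z = p (ty l, j l) t ∧ σ l i ≤ s l t} ≤
        (lev ((omg_RVs F (v l)).comp (ss F (g l))) (σ l i - (d * m : ℕ) * cg D y (v l) (g l))).comap ev := by
      rw [Submodule.span_le]
      rintro _ ⟨t, rfl, ht⟩
      show ev (p (ty l, j l) t) = 0 ∨ σ l i - (d * m : ℕ) * cg D y (v l) (g l) ≤
        omg F (v l) (F.s (g l) (ev (p (ty l, j l) t)))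
      by_cases h0 : ev (p (ty l, j l) t) = 0
      · exact Or.inl h0
      refine Or.inr ?_
      rw [hev, pol_eval68] at h0 ⊢
      have hf0 : ∀ i, aeval ξ (tfrm cs (j l i)) ≠ 0 := hne l
      have hx0 : ∀ i, ξ i ^ (φ (ty l, j l)).μ t i ≠ 0 := fun i => (Finset.prod_ne_zero_iff.1 (right_ne_zero_of_mul h0)) i
        (Finset.mem_univ i)
      have hsf0 : ∀ i, F.s (g l) (aeval ξ (tfrm cs (j l i))) ≠ 0 := fun i => (map_ne_zero _).2 (hf0 i)
      have h2 : omg F (v l) (F.s (g l) (∏ i, aeval ξ (tfrm cs (j l i)) ^ (φ (ty l, j l)).α t i)) =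
          ∑ i, (φ (ty l, j l)).α t i * omg F (v l) (F.s (g l) (aeval ξ (tfrm cs (j l i)))) := by
        rw [map_prod, omg_prod68 F (v l) _ _ fun i _ => (map_ne_zero _).2 (pow_ne_zero _ (hf0 i))]
        refine Finset.sum_congr rfl fun i _ => ?_
        rw [map_pow, omg_pow68 F (v l) _ (hsf0 i)]
      have h3 : -((∑ i, (φ (ty l, j l)).μ t i : ℕ) : ℝ) * cg D y (v l) (g l) ≤
          omg F (v l) (F.s (g l) (∏ i, ξ i ^ (φ (ty l, j l)).μ t i)) := by
        rw [map_prod, omg_prod68 F (v l) _ _ fun i _ => (map_ne_zero _).2 (hx0 i)]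
        push_cast
        rw [← Finset.sum_neg_distrib, Finset.sum_mul]
        refine Finset.sum_le_sum fun i _ => ?_
        rw [map_pow]
        rcases Nat.eq_zero_or_pos ((φ (ty l, j l)).μ t i) with h | h
        · rw [h, pow_zero, omg_one68, Nat.cast_zero, neg_zero, zero_mul]
        · have h4 : ξ i ≠ 0 := fun h5 => hx0 i (by rw [h5, zero_pow h.ne'])
          have h5 := pow_nonneg_s F y ξ hξ hy 1 (v l) (g l) (ξ i) (by
            rw [pow_one]
            exact Submodule.subset_span ⟨i, rfl⟩) h4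
          rw [Nat.cast_one, one_mul] at h5
          rw [omg_pow68 F (v l) _ ((map_ne_zero _).2 h4)]
          have h6 := mul_nonneg (Nat.cast_nonneg (α := ℝ) ((φ (ty l, j l)).μ t i)) h5
          linarith
      have h4 := hφ (ty l, j l) t
      have h5 : ((d * m : ℕ) : ℝ) = d * ∑ i, ((φ (ty l, j l)).α t i : ℝ) + ((∑ i, (φ (ty l, j l)).μ t i : ℕ) : ℝ) := by
        rw [← h4]
        push_cast
        ring
      have h6 : s₁ l t = ∑ i, (φ (ty l, j l)).α t i * omg F (v l) (F.s (g l) (aeval ξ (tfrm cs (j l i)))) +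
          (d * ∑ i, ((φ (ty l, j l)).α t i : ℝ)) * cg D y (v l) (g l) := by
        simp only [s₁, L, Lsl, mul_add]
        rw [Finset.sum_add_distrib, Finset.mul_sum, Finset.sum_mul]
        congr 1
        exact Finset.sum_congr rfl fun i _ => by ring
      have h7 : omg F (v l) (F.s (g l) ((∏ i, aeval ξ (tfrm cs (j l i)) ^ (φ (ty l, j l)).α t i) *
          ∏ i, ξ i ^ (φ (ty l, j l)).μ t i)) =
          omg F (v l) (F.s (g l) (∏ i, aeval ξ (tfrm cs (j l i)) ^ (φ (ty l, j l)).α t i)) +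
          omg F (v l) (F.s (g l) (∏ i, ξ i ^ (φ (ty l, j l)).μ t i)) := by
        rw [map_mul]
        exact (omg_RV F (v l)).mul _ _ ((map_ne_zero _).2 (left_ne_zero_of_mul h0))
          ((map_ne_zero _).2 (right_ne_zero_of_mul h0))
      have h8 : σ l i ≤ s₁ l t := ht.trans (min_le_right _ _)
      rw [h7, h2, h5]
      rw [h6] at h8
      linarith
    rcases h1 (heS l i) with h2 | h2
    · exact absurd h2 ((heI l).ne_zero i)
    · have h3 : σ l i - (d * m : ℕ) * cg D y (v l) (g l) ≤ omg F (v l) (F.s (g l) (ev (e l i))) := h2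
      linarith
  · obtain ⟨t, ht⟩ := hσ l i
    rw [ht]
    exact min_le_left _ _
  · -- the estimate
    have hfr : (finrank (slk F) (Fin (D' + 1) → slk F) : ℝ) = ((D' + 1 : ℕ) : ℝ) := by rw [Module.finrank_fin_fun]
    rw [hfr] at hmain
    obtain ⟨Dm, hDm⟩ : ∃ Dm : ℝ, Dm = ((D' + 1 : ℕ) : ℝ) := ⟨_, rfl⟩
    have hDm0 : 0 < Dm := by
      rw [hDm]
      positivity
    rw [← hDm] at hmain
    have hest' : ∀ l, Dm * (m * ((1 - ε) * Eq n (θ (ty l)) * ∑ i, L l i)) ≤ ∑ t, s l t := by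
      intro l
      have h1 := hest l
      rw [← hDm] at h1
      have h2 : ∑ i, L l i * ((1 - ε) * (m * Eq n (θ (ty l))) * Dm) ≤
          ∑ i, L l i * ∑ t, min (θ (ty l) * m) ((φ (ty l, j l)).α t i : ℝ) :=
        Finset.sum_le_sum fun i _ => mul_le_mul_of_nonneg_left (h1 i) (hL0 l i)
      have h3 : Dm * (m * ((1 - ε) * Eq n (θ (ty l)) * ∑ i, L l i)) =
          ∑ i, L l i * ((1 - ε) * (m * Eq n (θ (ty l))) * Dm) := by
        rw [← Finset.sum_mul]
        ring
      rw [h3]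
      refine h2.trans ?_
      simp only [Finset.mul_sum]
      rw [Finset.sum_comm]
      refine Finset.sum_le_sum fun t _ => ?_
      have h4 : ∑ i, L l i * min (θ (ty l) * m) ((φ (ty l, j l)).α t i : ℝ) ≤ s₁ l t := by
        refine Finset.sum_le_sum fun i _ => ?_
        rw [mul_comm]
        exact mul_le_mul_of_nonneg_right (min_le_right _ _) (hL0 l i)
      refine le_min ?_ h4
      rw [Finset.mul_sum]
      refine Finset.sum_le_sum fun i _ => ?_
      rw [mul_comm]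
      refine mul_le_mul_of_nonneg_right ?_ (hL0 l i)
      refine (min_le_left _ _).trans (le_of_eq ?_)
      ring
    have h5 : (finrank (slk F) V₀ : ℝ) * ∑ l, κ l * (Dm * (m * ((1 - ε) * Eq n (θ (ty l)) * ∑ i, L l i))) ≤
        finrank (slk F) V₀ * ∑ l, κ l * ∑ t, s l t :=
      mul_le_mul_of_nonneg_left (Finset.sum_le_sum fun l _ => mul_le_mul_of_nonneg_left (hest' l) (hκ l)) (Nat.cast_nonneg _)
    have h6 := h5.trans hmain
    refine le_of_mul_le_mul_left (le_trans (le_of_eq ?_) h6) hDm0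
    simp only [Finset.mul_sum]
    exact Finset.sum_congr rfl fun l _ => by
      rw [← Finset.mul_sum]
      simp only [L, Finset.mul_sum]
      exact Finset.sum_congr rfl fun i _ => by ring

end

end Pool.Agent.SQ
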