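import Pool.Agent.Helper68.BU.COR0
import Pool.Agent.Helper61.BU.NU
import Pool.Agent.Helper64.BU.BU4
import Pool.Agent.Helper21.BU.NM
import Pool.Agent.Helper99.BU.SELs
import Pool.Agent.Helper42.SQ.NULA

/-!
# The exceptional forms, of bounded degree, for all tuples of forms
-/

set_option autoImplicit false
set_option linter.unusedSectionVars false

namespace Pool.Agent.SQ

open NumberField Filter Module MvPolynomial
open Pool.Agent.Helper64.Vojta (Pl nv sn above)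
open Pool.Agent.V2
open Pool.Agent.Chart (fld dg crd hgt)

universe u

section

variable {k : Type u} [Field k] [NumberField k] {G : Type} [Group G] [Fintype G] {D : SqG k G} (F : GFG D)
  {N n d q δ D' : ℕ} {I : Ideal (MvPolynomial (Fin (N + 1)) k)} (𝔅 : Bas I δ (D' + 1))

/-- the germ of the values of a polynomial over `k` -/
theorem rp_aeval68 {σ : Type*} (z : σ → F.K) (x : ∀ a, σ → D.L a) (hz : ∀ j, ∀ᶠ a in (D.U : Filter ℕ), F.rp (z j) a = x a j)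
    (P : MvPolynomial σ k) : ∀ᶠ a in (D.U : Filter ℕ), F.rp (aeval z P) a = aeval (x a) P := by
  induction P using MvPolynomial.induction_on with
  | C c =>
    filter_upwards [F.rp_alg c] with a h1
    rw [aeval_C, aeval_C, h1]
  | add p q hp hq =>
    filter_upwards [hp, hq, F.rp_add (aeval z p) (aeval z q)] with a h1 h2 h3
    rw [map_add, map_add, h3, h1, h2]
  | mul_X p j hp =>
    filter_upwards [hp, hz j, F.rp_mul (aeval z p) (z j)] with a h1 h2 h3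
    rw [map_mul, map_mul, aeval_X, aeval_X, h3, h1, h2]

theorem rp_zero68 : ∀ᶠ a in (D.U : Filter ℕ), F.rp 0 a = 0 := by
  filter_upwards [F.rp_alg 0] with a ha
  rw [map_zero, map_zero] at ha
  exact ha

/-- the germs of the coordinates of the products -/
private theorem rp_crd68 {Ξ : Type} (φ : Ξ × (Fin (n + 1) → Fin q) → Fml n N) (cs : Fin q × Mns N d → slk F)
    (c : ℕ → Fin q × Mns N d → k) (hc : ∀ t, ∀ᶠ a in (D.U : Filter ℕ), (trs F).rp (cs t) a = c a t) (z) (t : Fin (φ z).R) (b) :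
    ∀ᶠ a in (D.U : Filter ℕ), (trs F).rp (𝔅.crd ((φ z).pol (fun i => tfrm cs (z.2 i)) t) b) a =
      𝔅.crd ((φ z).pol (fun i => tfrm (c a) (z.2 i)) t) b := by
  obtain ⟨Ψ, hΨ⟩ := 𝔅.exists_psi (φ z) z.2 t b (d := d)
  filter_upwards [trs_aeval F cs c hc Ψ] with a h
  rw [← hΨ cs, h, hΨ (c a)]

private theorem gm_wsl68 {Ξ : Type} (φ : Ξ × (Fin (n + 1) → Fin q) → Fml n N) (cs : Fin q × Mns N d → slk F)
    (c : ℕ → Fin q × Mns N d → k) (hc : ∀ t, ∀ᶠ a in (D.U : Filter ℕ), (trs F).rp (cs t) a = c a t)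
    (w : Σ z, Finset (Fin (φ z).R)) :
    ∀ᶠ a in (D.U : Filter ℕ), Gm (trs F) (Wsl 𝔅 φ cs w) a = Wsl 𝔅 φ (c a) w := by
  have h1 : ∀ {R : Type u} [CommRing R] [Algebra k R] (c : Fin q × Mns N d → R), Wsl 𝔅 φ c w =
      Submodule.span R (Set.range fun (t : w.2) => 𝔅.crd ((φ w.1).pol (fun i => tfrm c (w.1.2 i)) t.1)) := by
    intro R _ _ c
    unfold Wsl
    congr 1
    ext x
    constructor
    · rintro ⟨t, ht, rfl⟩
      exact ⟨⟨t, ht⟩, rfl⟩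
    · rintro ⟨t, rfl⟩
      exact ⟨t.1, t.2, rfl⟩
  have h2 := gm_span (trs F) (fun (t : w.2) => 𝔅.crd ((φ w.1).pol (fun i => tfrm cs (w.1.2 i)) t.1))
    (fun a (t : w.2) => 𝔅.crd ((φ w.1).pol (fun i => tfrm (c a) (w.1.2 i)) t.1))
    (fun t b => rp_crd68 F 𝔅 φ cs c hc w.1 t.1 b)
  filter_upwards [h2] with a h3
  rw [h1 cs, h1 (c a), h3]

private theorem li_lim68 {Ξ : Type} (φ : Ξ × (Fin (n + 1) → Fin q) → Fml n N) (cs : Fin q × Mns N d → slk F)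
    (c : ℕ → Fin q × Mns N d → k) (hc : ∀ t, ∀ᶠ a in (D.U : Filter ℕ), (trs F).rp (cs t) a = c a t) (z)
    (h : ∀ᶠ a in (D.U : Filter ℕ), LinearIndependent k fun t => 𝔅.crd ((φ z).pol (fun i => tfrm (c a) (z.2 i)) t)) :
    LinearIndependent (slk F) fun t => 𝔅.crd ((φ z).pol (fun i => tfrm cs (z.2 i)) t) := by
  have h2 := gm_span (trs F) (fun t => 𝔅.crd ((φ z).pol (fun i => tfrm cs (z.2 i)) t))
    (fun a t => 𝔅.crd ((φ z).pol (fun i => tfrm (c a) (z.2 i)) t)) (fun t b => rp_crd68 F 𝔅 φ cs c hc z t b)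
  obtain ⟨a, h3, h4, h5⟩ := (h.and (h2.and (gm_finrank (trs F)
    (Submodule.span (slk F) (Set.range fun t => 𝔅.crd ((φ z).pol (fun i => tfrm cs (z.2 i)) t)))))).exists
  rw [linearIndependent_iff_card_eq_finrank_span, Set.finrank] at h3 ⊢
  rw [h3, ← h5, h4]

end

/-- The exceptional forms `Q c` are of bounded degree; for sequences of points `y` and of coefficients `c` with slow germs: a
subspace of the forms of some degree `d * m` evaluated at `ξ`, with independent families. -/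
theorem core_pre {k : Type u} [Field k] [NumberField k] {N n d : ℕ} (q : ℕ) (hd : 0 < d)
    (I : Ideal (MvPolynomial (Fin (N + 1)) k)) [hIp : I.IsPrime]
    (hI : ∀ p ∈ I, ∀ m, homogeneousComponent m p ∈ I)
    (hdim : Algebra.trdeg k (MvPolynomial (Fin (N + 1)) k ⧸ I) = n + 1) {Ξ : Type} [Fintype Ξ] (θ : Ξ → ℝ)
    (hθ : ∀ x, 0 ≤ θ x) (hθ1 : ∀ x, θ x ≤ 1) {ε : ℝ} (hε : 0 < ε) :
    ∃ (M : ℕ) (Q : (Fin q × Mns N d → k) → MvPolynomial (Fin (N + 1)) k),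
      (∀ c, Q c ∉ I ∧ ∃ e ≤ M, (Q c).IsHomogeneous e) ∧
      ∀ {G : Type} [Group G] [Fintype G] {D : SqG k G} (F : GFG D) (y : ∀ a, Fin (N + 1) → D.L a), Ptg D y →
        (∀ a, ∀ p ∈ I, aeval (y a) p = 0) → ∀ (ξ : Fin (N + 1) → F.K),
        (∀ j, ∀ᶠ a in (D.U : Filter ℕ), F.rp (ξ j) a = y a j) →
        ∀ (cs : Fin q × Mns N d → slk F) (c : ℕ → Fin q × Mns N d → k),
        (∀ t, ∀ᶠ a in (D.U : Filter ℕ), (trs F).rp (cs t) a = c a t) → (∀ a, aeval (y a) (Q (c a)) ≠ 0) →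
        ∀ {Λ : Type u} [Fintype Λ] (T : Λ → Finset (Fin q)), (∀ l, n + 1 ≤ (T l).card) →
        (∀ a l, ∀ J ⊆ T l, J.card = n + 1 → ∀ x : Fin (N + 1) → AlgebraicClosure k, (∀ p ∈ I, aeval x p = 0) →
          (∀ i ∈ J, aeval x (tfrm (c a) i) = 0) → x = 0) → (∀ a, ∀ l, ∀ i ∈ T l, aeval (y a) (tfrm (c a) i) ≠ 0) →
        ∀ (v : Λ → Pl k) (g : Λ → G) (ty : Λ → Ξ) (κ : Λ → ℝ), (∀ l, 0 ≤ κ l) →
        ∃ (m : ℕ) (V' : Submodule (slk F) F.K), 0 < m ∧ V' ≤ (Submodule.span (slk F) (Set.range ξ)) ^ (d * m) ∧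
          0 < finrank (slk F) V' ∧
          ∃ (R : Λ → ℕ) (e : ∀ l, Fin (R l) → F.K) (σ : ∀ l, Fin (R l) → ℝ),
            (∀ l i, e l i ∈ V') ∧ (∀ l, LinearIndependent (slk F) (e l)) ∧
            (∀ l i, σ l i ≤ omg F (v l) (F.s (g l) (e l i)) + (d * m : ℕ) * cg D y (v l) (g l)) ∧
            (∀ l i, σ l i ≤ m * θ (ty l) * ∑ i ∈ T l, Lsl F y ξ cs (v l) (g l) i) ∧
            finrank (slk F) V' * (m * ∑ l, κ l * ((1 - ε) * Eq n (θ (ty l)) * ∑ i ∈ T l, Lsl F y ξ cs (v l) (g l) i)) ≤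
              ∑ l, κ l * ∑ i, σ l i := by
  classical
  by_cases hX : ∃ j, (X j : MvPolynomial (Fin (N + 1)) k) ∉ I
  swap
  · refine ⟨0, fun _ => 1, fun c => ⟨fun h => hIp.ne_top ((Ideal.eq_top_iff_one I).2 h), 0, le_rfl, isHomogeneous_one _ _⟩, ?_⟩
    intro G _ _ D F y hy hyI
    exfalso
    push Not at hX
    obtain ⟨j, hj⟩ := hy.1 0
    have h1 := hyI 0 _ (hX j)
    rw [aeval_X, hj] at h1
    exact one_ne_zero h1
  obtain ⟨j0, hj0⟩ := hX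
  obtain ⟨Φ, hΦ, hΦc⟩ := efx_u (q := q) hd I hI hdim θ hθ hθ1 hε
  choose φ hφΦ hφli hφest using hΦc
  -- bases
  have hbas : ∀ m, ∃ D' : ℕ, Nonempty (Bas I (d * m) (D' + 1)) := by
    intro m
    have hh : hilb I (d * m) ≠ 0 := by
      have hfd := Pool.Agent.ZS.fd_hom (k := k) (N := N) (d * m)
      have h3 : Nontrivial (Pool.Agent.ZS.HQ I (d * m)) := by
        refine ⟨⟨⟨Ideal.Quotient.mk I (X j0 ^ (d * m)), Pool.Agent.ZS.mem_HQ (by
          have := (isHomogeneous_X k j0).pow (d * m)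
          rwa [one_mul] at this)⟩, 0, fun h => hj0 (hIp.mem_of_pow_mem (d * m) ?_)⟩⟩
        exact Ideal.Quotient.eq_zero_iff_mem.1 (congrArg Subtype.val h)
      have h4 : 0 < finrank k (Pool.Agent.ZS.HQ I (d * m)) := finrank_pos
      exact h4.ne'
    obtain ⟨D', hD'⟩ := Nat.exists_eq_succ_of_ne_zero hh
    refine ⟨D', ?_⟩
    have := exists_bas I (d * m)
    rwa [hD'] at this
  choose D' hD' using hbas
  let 𝔅 : ∀ m, Bas I (d * m) (D' m + 1) := fun m => (hD' m).some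
  -- the lists
  have hlist := fun (p : ℕ × (Ξ × (Fin (n + 1) → Fin q) → Fml n N)) (c : Fin q × Mns N d → k) =>
    exists_nm (Wsl (𝔅 p.1) p.2 c)
  choose lst hlst0 hlstc hlst using hlist
  obtain ⟨Mn, hMn⟩ := nul_u (k := k) (N := N) d (n + 1) I hI
  let fq : ∀ p : ℕ × (Ξ × (Fin (n + 1) → Fin q) → Fml n N), (Fin (D' p.1 + 1) → k) → MvPolynomial (Fin (N + 1)) k :=
    fun p u => ∑ b, C (u b) * (𝔅 p.1).B b
  let bd : ℕ × (Ξ × (Fin (n + 1) → Fin q) → Fml n N) → ℕ := fun p =>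
    (D' p.1 + 2) ^ (Fintype.card (Σ z, Finset (Fin (p.2 z).R)) + 1) * (d * p.1)
  refine ⟨∑ p ∈ Φ, bd p, fun c => ∏ u ∈ lst (φ c) c, fq (φ c) u, fun c => ⟨?_, ?_⟩, ?_⟩
  · intro h
    obtain ⟨u, hu, hu'⟩ := hIp.prod_mem_iff.1 h
    exact hlst0 (φ c) c u hu (((𝔅 (φ c).1).frm_mem u).2 hu')
  · refine ⟨∑ u ∈ lst (φ c) c, d * (φ c).1, ?_, IsHomogeneous.prod _ _ _ fun u _ => ((𝔅 (φ c).1).frm_mem u).1⟩
    rw [Finset.sum_const, smul_eq_mul]
    refine le_trans (Nat.mul_le_mul_right _ (hlstc (φ c) c)) ?_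
    exact Finset.single_le_sum (f := bd) (fun _ _ => Nat.zero_le _) (hφΦ c)
  intro G _ _ D F y hy hyI ξ hξ cs c hc hyQ Λ _ T hT hgp hyf v g ty κ hκ
  -- the datum is constant
  obtain ⟨p, hpΦ, hp⟩ := (Ultrafilter.eventually_exists_mem_iff (f := D.U) (is := (Φ : Set _)) Φ.finite_toSet
    (P := fun p a => φ (c a) = p)).1 (Eventually.of_forall fun a => ⟨φ (c a), hφΦ (c a), rfl⟩)
  obtain ⟨hp0, hpdeg⟩ := hΦ p hpΦ
  have hξI : ∀ f ∈ I, aeval ξ f = 0 := by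
    intro f hf
    refine F.rp_inj _ _ ?_
    filter_upwards [rp_aeval68 F ξ y hξ f, rp_zero68 F] with a h1 h2
    rw [h1, h2, hyI a f hf]
  have hne : ∀ l, ∀ i ∈ T l, aeval ξ (tfrm cs i) ≠ 0 := by
    intro l i hi h
    obtain ⟨a, h1, h2⟩ := ((rp_tfrm F y ξ hξ cs c hc i).and (rp_zero68 F)).exists
    rw [h, h2] at h1
    exact hyf a l i hi h1.symm
  -- the selection
  have hfin : ∀ a l, ∀ j : Fin (n + 1) → Fin q, Function.Injective j → (∀ i, j i ∈ T l) →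
      ∃ M, ∀ l, (X l : MvPolynomial (Fin (N + 1)) k) ^ M ∈ I ⊔ Ideal.span (Set.range fun i => tfrm (c a) (j i)) := by
    intro a l j hj hjT
    refine nul_alg hd I hI (fun i => tfrm (c a) (j i)) (fun i => tfrm_hom _ _) fun x hx hx0 =>
      hgp a l (Finset.univ.image j) (fun i hi => ?_) ?_ x hx fun i hi => ?_
    · obtain ⟨i', -, rfl⟩ := Finset.mem_image.1 hi
      exact hjT i'
    · rw [Finset.card_image_of_injective _ hj, Finset.card_univ, Fintype.card_fin]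
    · obtain ⟨i', -, rfl⟩ := Finset.mem_image.1 hi
      exact hx0 i'
  have hM : ∀ l, ∀ᶠ a in (D.U : Filter ℕ), ∀ j : Fin (n + 1) → Fin q, Function.Injective j → (∀ i, j i ∈ T l) →
      ∀ l, (X l : MvPolynomial (Fin (N + 1)) k) ^ Mn ∈ I ⊔ Ideal.span (Set.range fun i => tfrm (c a) (j i)) := fun l =>
    Eventually.of_forall fun a j hj hjT =>
      hMn (fun w : Fin (n + 1) × Mns N d => c a (j w.1, w.2)) (hfin a l j hj hjT)
  have hsel := fun l => sel_s F y ξ hξ hy I hI hyI cs c hc (T l) (hT l) (hM l) (hne l) (v l) (g l)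
  choose j hjinj hjT hjL using hsel
  -- the estimate
  obtain ⟨a0, ha0⟩ := hp.exists
  have hest : ∀ l i, (1 - ε) * (p.1 * Eq n (θ (ty l))) * ((D' p.1 + 1 : ℕ) : ℝ) ≤
      ∑ t, min (θ (ty l) * p.1) ((p.2 (ty l, j l)).α t i : ℝ) := by
    intro l i
    have h1 := hφest (c a0) (ty l, j l) (hfin a0 l (j l) (hjinj l) (hjT l)) i
    rw [ha0, ← (𝔅 p.1).card] at h1
    exact h1
  -- the limit
  have hli : ∀ z, LinearIndependent (slk F) fun t => (𝔅 p.1).crd ((p.2 z).pol (fun i => tfrm cs (z.2 i)) t) := by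
    intro z
    refine li_lim68 F (𝔅 p.1) p.2 cs c hc z ?_
    filter_upwards [hp] with a ha
    have h1 := hφli (c a)
    rw [ha] at h1
    exact ((𝔅 p.1).crd_li _ fun t => pol_hom (p.2 z) (hpdeg z) _ (fun i => tfrm_hom _ _) t).1 (h1 z)
  have hU : ∀ ρ : (Σ z, Finset (Fin (p.2 z).R)) → ℝ, ∃ U : Submodule (slk F) (Fin (D' p.1 + 1) → slk F),
      ¬ U ≤ kerS F (fun b => aeval ξ ((𝔅 p.1).B b)) ∧
      ∀ E : Submodule (slk F) (Fin (D' p.1 + 1) → slk F),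
        (∑ w, ρ w * finrank (slk F) ↥(E ⊓ Wsl (𝔅 p.1) p.2 cs w)) * finrank (slk F) U ≤
        (∑ w, ρ w * finrank (slk F) ↥(U ⊓ Wsl (𝔅 p.1) p.2 cs w)) * finrank (slk F) E := by
    intro ρ
    obtain ⟨U, -, hU, hUL⟩ := lim_hn F (Wsl (𝔅 p.1) p.2 cs) (fun a => Wsl (𝔅 p.1) p.2 (c a))
      (gm_wsl68 F (𝔅 p.1) p.2 cs c hc) (fun a => lst p (c a)) (fun a => hlst p (c a)) ρ
    refine ⟨U, fun hle => ?_, hU⟩
    have hx : ∀ b, ∀ᶠ a in (D.U : Filter ℕ), F.rp (aeval ξ ((𝔅 p.1).B b)) a = aeval (y a) ((𝔅 p.1).B b) := fun b =>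
      rp_aeval68 F ξ y hξ _
    obtain ⟨a, ⟨h1, h2⟩, h3⟩ := ((hUL.and (gm_ker F (x := fun a b => aeval (y a) ((𝔅 p.1).B b)) _ hx U hle)).and hp).exists
    obtain ⟨u, hu, huU⟩ := h1
    refine hyQ a ?_
    show aeval (y a) (∏ u ∈ lst (φ (c a)) (c a), fq (φ (c a)) u) = 0
    rw [h3, map_prod]
    refine Finset.prod_eq_zero hu ?_
    rw [map_sum]
    refine Eq.trans (Finset.sum_congr rfl fun b _ => ?_) (h2 u huU)
    rw [map_mul, aeval_C]
  obtain ⟨V', hV', hpos, R, e, σ, h1, h2, h3, h4, h5⟩ := core0_s F (𝔅 p.1) θ hθ (ε := ε) p.2 hpdeg y hy ξ hξ hξI cs hli hU v g ty j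
    (fun l i => hne l _ (hjT l i)) hest κ hκ
  have hjL' : ∀ l, ∑ i, Lsl F y ξ cs (v l) (g l) (j l i) = ∑ i ∈ T l, Lsl F y ξ cs (v l) (g l) i := fun l => (hjL l).symm
  simp only [hjL'] at h4 h5
  exact ⟨p.1, V', hp0, hV', hpos, R, e, σ, h1, h2, h3, h4, h5⟩

end Pool.Agent.SQ
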