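import Pool.Agent.Helper4.AU.LIM
import Pool.Agent.Helper68.ZS.HNP

/-!
# Sections of bounded degree, uniformly: definitions

`I` is a homogeneous ideal of `k[X_0, ..., X_N]`. The tuples of `q` forms of degree `d` over `R` are given by their
coefficients `c : Fin q × Mns N d → R`.
-/

set_option autoImplicit false

namespace Pool.Agent.SQ

open NumberField Filter Module MvPolynomial

universe u

/-- the monomials of degree `d` -/
abbrev Mns (N d : ℕ) : Type := ↥(Finset.finsuppAntidiag (Finset.univ : Finset (Fin (N + 1))) d)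

/-- the `i`-th form with the coefficients `c` -/
noncomputable def tfrm {R : Type*} [CommSemiring R] {N d q : ℕ} (c : Fin q × Mns N d → R) (i : Fin q) :
    MvPolynomial (Fin (N + 1)) R :=
  ∑ μ : Mns N d, monomial μ.1 (c (i, μ))

/-- forms which are a basis of the forms of degree `δ` modulo `I`, and the coordinates of the monomials -/
structure Bas {k : Type*} [Field k] {N : ℕ} (I : Ideal (MvPolynomial (Fin (N + 1)) k)) (δ D : ℕ) where
  B : Fin D → MvPolynomial (Fin (N + 1)) k
  κ : Mns N δ → Fin D → k
  hom : ∀ b, (B b).IsHomogeneous δ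
  ind : LinearIndependent k fun b => Ideal.Quotient.mk I (B b)
  red : ∀ μ : Mns N δ, monomial μ.1 (1 : k) - ∑ b, C (κ μ b) * B b ∈ I

/-- the coordinates of a form of degree `δ` over a `k`-algebra -/
noncomputable def Bas.crd {k : Type*} [Field k] {N : ℕ} {I : Ideal (MvPolynomial (Fin (N + 1)) k)} {δ D : ℕ}
    (𝔅 : Bas I δ D) {R : Type*} [CommRing R] [Algebra k R] (p : MvPolynomial (Fin (N + 1)) R) (b : Fin D) : R :=
  ∑ μ : Mns N δ, algebraMap k R (𝔅.κ μ b) * coeff μ.1 p

/-- exponents and monomials: the family of the products `∏ f i ^ α t i * X ^ μ t` -/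
structure Fml (n N : ℕ) where
  R : ℕ
  α : Fin R → Fin (n + 1) → ℕ
  μ : Fin R → (Fin (N + 1) →₀ ℕ)

/-- the products -/
noncomputable def Fml.pol {n N : ℕ} (φ : Fml n N) {R : Type*} [CommRing R] (f : Fin (n + 1) → MvPolynomial (Fin (N + 1)) R)
    (t : Fin φ.R) : MvPolynomial (Fin (N + 1)) R :=
  (∏ i, f i ^ φ.α t i) * monomial (φ.μ t) 1

/-- the products of forms of degree `d` have degree `d * m` -/
def Fml.deg {n N : ℕ} (φ : Fml n N) (d m : ℕ) : Prop := ∀ t, d * ∑ i, φ.α t i + ∑ j, φ.μ t j = d * m

/-- the dimension of a subspace and the dimensions of its intersections with given subspaces -/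
noncomputable def vcz {k V A : Type*} [Field k] [AddCommGroup V] [Module k V] (W : A → Submodule k V) (U : Submodule k V) :
    ℕ × (A → ℕ) :=
  (finrank k U, fun a => finrank k ↥(U ⊓ W a))

end Pool.Agent.SQ
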