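import Pool.Agent.Helper68.BU.Defs
import Pool.Agent.Helper63.SQ5.B

/-!
# Sections of bounded degree, uniformly: the height of the coefficients
-/

set_option autoImplicit false

namespace Pool.Agent.SQ

open NumberField Filter Module MvPolynomial
open Pool.Agent.Helper64.Vojta (Pl nv sn above)
open Pool.Agent.V2

universe u

/-- the height of the coefficients of the `i`-th form -/
noncomputable def hcf {k : Type u} [Field k] [NumberField k] {N d q : ℕ} (c : Fin q × Mns N d → k) (i : Fin q) : ℝ :=
  gsum fun v : Pl k => Real.log (mxn (nv v) fun μ : Mns N d => c (i, μ))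

end Pool.Agent.SQ
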