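import Pool.Agent.Helper68.BU.Defs2

/-!
# The largest absolute value of a coefficient
-/

set_option autoImplicit false

namespace Pool.Agent.SQ

open NumberField MvPolynomial
open Pool.Agent.Helper64.Vojta (Pl nv)

universe u

/-- the largest absolute value of a coefficient -/
noncomputable def cn {k : Type u} [Field k] [NumberField k] {N : ℕ} {L : Type u} [Field L] [NumberField L] [Algebra k L]
    (g : MvPolynomial (Fin N) k) (w : Pl L) : ℝ :=
  ⨆ m : g.support, nv w (algebraMap k L (g.coeff m))

end Pool.Agent.SQ
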