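import Pool.Agent.Helper68.BU.CN
import Mathlib.RingTheory.MvPolynomial.MonomialOrder

set_option autoImplicit false

namespace Pool.Agent.SQ

open NumberField Filter Module MvPolynomial
open Pool.Agent.Helper64.Vojta (Pl nv sn above nv_pos nv_nonneg nv_mul)
open Pool.Agent.Helper52.Vojta (ldeg)
open Pool.Agent.V2

universe u

section

variable {k : Type u} [Field k] [NumberField k] {N : ℕ}

/-- the local constants -/
private noncomputable def kc68 (k : Type u) [Field k] [NumberField k] (M : ℕ) (v : Pl k) : ℝ :=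
  match v with
  | .inl _ => Real.log (((M : ℝ) + 1) ^ 2)
  | .inr _ => 0

private theorem kc_finS68 (M : ℕ) : FinS (kc68 k M) := by
  unfold FinS kc68
  simp

private theorem kc_nonneg68 (M : ℕ) (v : Pl k) : 0 ≤ kc68 k M v := by
  rcases v with v | v
  · refine Real.log_nonneg (one_le_pow₀ ?_)
    have : (0 : ℝ) ≤ M := Nat.cast_nonneg _
    linarith
  · exact le_refl _

/-- the sum of at most `M` terms -/
private theorem sum_kc68 (v : Pl k) {M : ℕ} {ι : Type*} (s : Finset ι) (hs : s.card ≤ M) (f : ι → k) {B : ℝ} (hB : 0 ≤ B)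
    (h : ∀ i ∈ s, nv v (f i) ≤ B) : nv v (∑ i ∈ s, f i) ≤ Real.exp (kc68 k M v) * B := by
  rcases v with v | v
  · have h1 := Pool.Agent.Helper64.Vojta.nv_sum_le_inl v s f B hB h
    have h2 : Real.exp (kc68 k M (.inl v)) = ((M : ℝ) + 1) ^ 2 := Real.exp_log (by positivity)
    rw [h2]
    refine h1.trans (mul_le_mul_of_nonneg_right ?_ hB)
    have h3 : (s.card : ℝ) ≤ M := by exact_mod_cast hs
    exact pow_le_pow_left₀ (by positivity) (by linarith) 2
  · have h1 := Pool.Agent.Helper64.Vojta.nv_sum_le_inr v s f B hB h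
    have h2 : Real.exp (kc68 k M (.inr v)) = 1 := Real.exp_zero
    rw [h2, one_mul]
    exact h1

/-- the coefficients of the powers -/
private theorem pow_kc68 (v : Pl k) {M : ℕ} (g : MvPolynomial (Fin N) k) (hM : g.support.card ≤ M) {B : ℝ} (hB : 1 ≤ B)
    (h : ∀ m, nv v (coeff m g) ≤ B) (e : ℕ) : ∀ m, nv v (coeff m (g ^ e)) ≤ Real.exp (e * kc68 k M v) * B ^ e := by
  classical
  have hB0 : 0 ≤ B := zero_le_one.trans hB
  induction e with
  | zero =>
    intro m
    rw [pow_zero, coeff_one, pow_zero, Nat.cast_zero, zero_mul, Real.exp_zero, one_mul]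
    split_ifs
    · exact (Pool.Agent.Helper64.Vojta.nv_one v).le
    · rw [Pool.Agent.Helper64.Vojta.nv_zero]
      exact zero_le_one
  | succ e ih =>
    intro m
    rw [pow_succ, coeff_mul]
    have h1 : ∑ x ∈ Finset.HasAntidiagonal.antidiagonal m, coeff x.1 (g ^ e) * coeff x.2 g =
        ∑ x ∈ (Finset.HasAntidiagonal.antidiagonal m).filter (fun x => x.2 ∈ g.support), coeff x.1 (g ^ e) * coeff x.2 g := by
      rw [Finset.sum_filter]
      refine Finset.sum_congr rfl fun x _ => ?_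
      split_ifs with hx
      · rfl
      · rw [MvPolynomial.notMem_support_iff.1 hx, mul_zero]
    rw [h1]
    have hc : ((Finset.HasAntidiagonal.antidiagonal m).filter (fun x => x.2 ∈ g.support)).card ≤ M := by
      refine le_trans ?_ hM
      refine Finset.card_le_card_of_injOn (fun x => x.2) (fun x hx => (Finset.mem_filter.1 hx).2) ?_
      intro x hx y hy hxy
      have hx1 := Finset.HasAntidiagonal.mem_antidiagonal.1 (Finset.mem_filter.1 hx).1
      have hy1 := Finset.HasAntidiagonal.mem_antidiagonal.1 (Finset.mem_filter.1 hy).1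
      have hxy' : x.2 = y.2 := hxy
      rw [← hy1, hxy'] at hx1
      exact Prod.ext (add_right_cancel hx1) hxy'
    have hT : 0 ≤ Real.exp (e * kc68 k M v) * B ^ e * B := by positivity
    refine (sum_kc68 v _ hc _ hT fun x _ => ?_).trans (le_of_eq ?_)
    · rw [nv_mul]
      exact mul_le_mul (ih x.1) (h x.2) (nv_nonneg _ _) (by positivity)
    · rw [pow_succ]
      push_cast
      rw [add_mul, one_mul, Real.exp_add]
      ring

/-- `C b⁻¹ * g` has a coefficient `1`, as all its powers; the height of the powers -/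
theorem exists_cf (k : Type u) [Field k] [NumberField k] (N : ℕ) {d e D : ℕ} (hD : d * e = D) : ∃ A : ℝ, 0 ≤ A ∧
    ∀ g : MvPolynomial (Fin (N + 1)) k, g.IsHomogeneous d → g ≠ 0 → ∃ (b : k) (c : Mns N D → k), b ≠ 0 ∧
      (∃ m ∈ g.support, coeff m g = b) ∧ (∃ μ, c μ = 1) ∧ (∀ μ, c μ = coeff μ.1 ((C b⁻¹ * g) ^ e)) ∧
      gsum (fun v : Pl k => Real.log (mxn (nv v) c)) ≤ e * Height.logHeight (fun m : g.support => g.coeff m) + A := by
  classical
  let M : ℕ := (Finset.finsuppAntidiag (Finset.univ : Finset (Fin (N + 1))) d).card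
  have hmem : ∀ {δ : ℕ} {p : MvPolynomial (Fin (N + 1)) k}, p.IsHomogeneous δ → ∀ {m}, m ∈ p.support →
      m ∈ Finset.finsuppAntidiag (Finset.univ : Finset (Fin (N + 1))) δ := by
    intro δ p hp m hm
    rw [Finset.mem_finsuppAntidiag]
    refine ⟨?_, Finset.subset_univ _⟩
    have h2 := hp (MvPolynomial.mem_support_iff.1 hm)
    rw [← h2, Finsupp.weight_apply]
    have h3 : (m.sum fun i c => c • (1 : Fin (N + 1) → ℕ) i) = ∑ i, m i • (1 : Fin (N + 1) → ℕ) i :=
      Finsupp.sum_fintype _ _ fun _ => zero_smul _ _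
    refine Eq.trans ?_ h3.symm
    exact Finset.sum_congr rfl fun i _ => by simp
  refine ⟨gsum fun v => e * kc68 k M v, gsum_nonneg fun v => mul_nonneg (Nat.cast_nonneg _) (kc_nonneg68 M v), ?_⟩
  intro g hg hg0
  let o : MonomialOrder (Fin (N + 1)) := MonomialOrder.lex
  obtain ⟨b, hb⟩ : ∃ b, b = o.leadingCoeff g := ⟨_, rfl⟩
  have hb0 : b ≠ 0 := by
    rw [hb]
    exact o.leadingCoeff_ne_zero_iff.2 hg0
  have hm : o.degree g ∈ g.support := (o.degree_mem_support_iff g).2 hg0
  have hmb : coeff (o.degree g) g = b := by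
    rw [hb]
    rfl
  obtain ⟨gs, hgs⟩ : ∃ gs, gs = C b⁻¹ * g := ⟨_, rfl⟩
  have hgs0 : gs ≠ 0 := by
    rw [hgs]
    exact mul_ne_zero (by simpa using hb0) hg0
  have hgsh : gs.IsHomogeneous d := by
    rw [hgs]
    have := (isHomogeneous_C (Fin (N + 1)) b⁻¹).mul hg
    rwa [zero_add] at this
  have hgsp : (gs ^ e).IsHomogeneous D := by
    have := hgsh.pow e
    rwa [hD] at this
  have hgsc : ∀ m, coeff m gs = b⁻¹ * coeff m g := fun m => by rw [hgs, coeff_C_mul]
  have hl1 : o.leadingCoeff gs = 1 := by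
    rw [hgs, o.leadingCoeff_mul, o.leadingCoeff_C, ← hb, inv_mul_cancel₀ hb0]
  have hl2 : o.leadingCoeff (gs ^ e) = 1 := by rw [o.leadingCoeff_pow, hl1, one_pow]
  have hp0 : gs ^ e ≠ 0 := pow_ne_zero _ hgs0
  have hp1 : o.degree (gs ^ e) ∈ (gs ^ e).support := (o.degree_mem_support_iff _).2 hp0
  refine ⟨b, fun μ => coeff μ.1 (gs ^ e), hb0, ⟨_, hm, hmb⟩, ⟨⟨o.degree (gs ^ e), hmem hgsp hp1⟩, hl2⟩, fun μ => by rw [hgs], ?_⟩
  -- the heights
  obtain ⟨h1, h2, h3⟩ := gsum_cn hm
  rw [h3, hmb]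
  rw [hmb] at h1 h2
  obtain ⟨B, hB⟩ : ∃ B : Pl k → ℝ, B = fun v => Real.log (cn g v) - Real.log (nv v b) := ⟨_, rfl⟩
  have hB' : (fun v : Pl k => Real.log (cn g v) - Real.log (nv v b)) = B := hB.symm
  have hBF : FinS B := by rw [hB]; exact h1
  have hB0 : ∀ v, 0 ≤ B v := fun v => by rw [hB]; exact h2 v
  rw [hB', ← gsum_const_mul, ← gsum_add (hBF.const_mul _) ((kc_finS68 M).const_mul _)]
  have hne : Nonempty (Mns N D) := ⟨⟨o.degree (gs ^ e), hmem hgsp hp1⟩⟩
  refine gsum_mono ?_ ((hBF.const_mul _).add ((kc_finS68 M).const_mul _)) fun v => ?_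
  · obtain ⟨n, ⟨t⟩⟩ : ∃ n, Nonempty (Fin n ≃ Mns N D) := ⟨_, ⟨(Fintype.equivFin (Mns N D)).symm⟩⟩
    have h5 : (fun v : Pl k => Real.log (mxn (nv v) fun μ : Mns N D => coeff μ.1 (gs ^ e))) =
        fun v => Real.log (sn v fun j => coeff (t j).1 (gs ^ e)) := by
      funext v
      congr 1
      exact (t.iSup_comp (g := fun μ : Mns N D => nv v (coeff μ.1 (gs ^ e)))).symm
    rw [h5]
    have h6 : (fun j => coeff (t j).1 (gs ^ e)) ≠ 0 := by
      intro h
      have h7 := congrFun h (t.symm ⟨o.degree (gs ^ e), hmem hgsp hp1⟩)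
      simp only [Equiv.apply_symm_apply, Pi.zero_apply] at h7
      exact MvPolynomial.mem_support_iff.1 hp1 h7
    exact Pool.Agent.Helper64.Vojta.log_support _ (Pool.Agent.Helper64.Vojta.fin_support_sn h6)
  · have hBe : ∀ m, nv v (coeff m gs) ≤ Real.exp (B v) := by
      intro m
      rw [hgsc, nv_mul, Pool.Agent.Helper64.Vojta.nv_inv, hB]
      simp only
      have h5 : 0 < cn g v := (nv_pos v hb0).trans_le (by
        have := cn_ge (L := k) g hm v
        rwa [hmb] at this)
      rw [Real.exp_sub, Real.exp_log h5, Real.exp_log (nv_pos v hb0), div_eq_inv_mul]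
      refine mul_le_mul_of_nonneg_left ?_ (inv_nonneg.2 (nv_nonneg _ _))
      by_cases h6 : m ∈ g.support
      · exact cn_ge (L := k) g h6 v
      · rw [MvPolynomial.notMem_support_iff.1 h6, Pool.Agent.Helper64.Vojta.nv_zero]
        exact h5.le
    have hsup : gs.support.card ≤ M := Finset.card_le_card fun m hm => hmem hgsh hm
    have h5 := pow_kc68 v gs hsup (Real.one_le_exp (hB0 v)) hBe e
    have h6 : mxn (nv v) (fun μ : Mns N D => coeff μ.1 (gs ^ e)) ≤ Real.exp (e * kc68 k M v) * Real.exp (B v) ^ e :=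
      ciSup_le fun μ => h5 μ.1
    have h7 : 0 < mxn (nv v) (fun μ : Mns N D => coeff μ.1 (gs ^ e)) := by
      refine lt_of_lt_of_le (nv_pos v (MvPolynomial.mem_support_iff.1 hp1)) ?_
      exact le_ciSup (f := fun μ : Mns N D => nv v (coeff μ.1 (gs ^ e))) (Set.finite_range _).bddAbove
        ⟨o.degree (gs ^ e), hmem hgsp hp1⟩
    have h8 := Real.log_le_log h7 h6
    rw [Real.log_mul (Real.exp_pos _).ne' (pow_pos (Real.exp_pos _) _).ne', Real.log_exp, Real.log_pow, Real.log_exp] at h8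
    linarith

end

end Pool.Agent.SQ
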