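import Pool.Agent.Helper68.BU.PW
import Pool.Agent.Helper80.BU.FINlu
import Pool.Agent.Helper67.BU.FINtu
import Pool.Agent.Helper16.SQF.Hlp

/-!
# The final theorem, for forms of different degrees
-/

set_option autoImplicit false
set_option linter.unusedSectionVars false

namespace Pool.Agent.SQ

open NumberField Filter Module MvPolynomial
open Pool.Agent.Helper64.Vojta (Pl nv sn above nv_mul nv_pos)
open Pool.Agent.Helper52.Vojta (ldeg)
open Pool.Agent.V2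
open Pool.Agent.Chart (fld dg crd hgt)

universe u

/-- the local function normalised by the coefficients -/
noncomputable def lamN {k : Type u} [Field k] [NumberField k] (d : ℕ) {N : ℕ} (g : MvPolynomial (Fin N) k)
    (x : Fin N → AlgebraicClosure k) (w : Pl (fld x)) : ℝ :=
  (d * Real.log (sn w (crd x)) + Real.log (cn g w) - Real.log (nv w (aeval (crd x) g))) / dg x

section

variable {k : Type u} [Field k] [NumberField k]

/-- the power of a form divided by a constant -/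
private theorem lam_f {N D d e : ℕ} (hd : 0 < d) (he : 0 < e) (h : d * e = D) (g : MvPolynomial (Fin N) k) {b : k}
    (hb : b ≠ 0) (x : Fin N → AlgebraicClosure k) (hx : aeval (crd x) g ≠ 0) (w : Pl (fld x)) :
    lamW D ((C b⁻¹ * g) ^ e) x w = D * (lamN d g x w / d -
      (Real.log (cn g w) - Real.log (nv w (algebraMap k (fld x) b))) / dg x / d) := by
  have h1 : aeval (crd x) ((C b⁻¹ * g) ^ e) = ((algebraMap k (fld x) b)⁻¹ * aeval (crd x) g) ^ e := by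
    rw [map_pow, map_mul, aeval_C, map_inv₀]
  have hb' : algebraMap k (fld x) b ≠ 0 := (map_ne_zero _).2 hb
  unfold lamW lamN
  rw [h1, Pool.Agent.Helper16.SQF.nv_pow, Real.log_pow, nv_mul, Real.log_mul (nv_pos w (inv_ne_zero hb')).ne'
    (nv_pos w hx).ne', Pool.Agent.Helper64.Vojta.nv_inv, Real.log_inv, ← h]
  have h5 : (d : ℝ) ≠ 0 := by exact_mod_cast hd.ne'
  push_cast
  field_simp
  ring

private theorem max3 {a b c a' b' c' D Δ : ℝ} (hD : 0 < D) (h1 : a ≤ a' / D + Δ) (h2 : b ≤ b' / D + Δ) (h3 : c ≤ c' / D + Δ) :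
    max a (max b c) ≤ max a' (max b' c') / D + Δ := by
  refine max_le (h1.trans ?_) (max_le (h2.trans ?_) (h3.trans ?_)) <;> gcongr
  · exact le_max_left _ _
  · exact (le_max_left _ _).trans (le_max_right _ _)
  · exact (le_max_right _ _).trans (le_max_right _ _)

end

/-- **The theorem.** -/
theorem res_u {k : Type u} [Field k] [NumberField k] (N n q r : ℕ) (hr : 0 < r)
    (P : Ideal (MvPolynomial (Fin (N + 1)) k)) [P.IsPrime]
    (hhom : ∀ f ∈ P, ∀ m, homogeneousComponent m f ∈ P)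
    (hP : Algebra.trdeg k (MvPolynomial (Fin (N + 1)) k ⧸ P) = n + 1)
    (d : Fin q → ℕ) (hd : ∀ i, 0 < d i) (ε : ℝ) (hε : 0 < ε) :
    ∃ (M : ℕ) (Q : (Fin q → MvPolynomial (Fin (N + 1)) k) → MvPolynomial (Fin (N + 1)) k),
      (∀ g, Q g ∉ P ∧ ∃ e ≤ M, (Q g).IsHomogeneous e) ∧
      ∀ S : Finset (Pl k), ∃ C : ℝ, ∀ g : Fin q → MvPolynomial (Fin (N + 1)) k, (∀ i, (g i).IsHomogeneous (d i)) →
      ∀ J : Pl k → Finset (Fin q), (∀ ν ∈ S, n < (J ν).card ∧ ∀ I ⊆ J ν, I.card = n + 1 →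
        ∀ x : Fin (N + 1) → AlgebraicClosure k, ((∃ j, x j = 1) ∧ ∀ f ∈ P, aeval x f = 0) → ∃ i ∈ I, aeval x (g i) ≠ 0) →
      ∀ x : Fin (N + 1) → AlgebraicClosure k, (∃ j, x j = 1) → (∀ f ∈ P, aeval x f = 0) →
        (∀ ν ∈ S, ∀ i ∈ J ν, aeval x (g i) ≠ 0) → aeval x (Q g) ≠ 0 →
        (dg x ≤ r → ∀ w : Pl k → Pl (fld x), (∀ ν, w ν ∈ above (fld x) ν) →
          ∑ ν ∈ S, max (∑ w ∈ above (fld x) ν, (∑ i ∈ J ν, lamN (d i) (g i) x w / d i) * cnq n (dg x / ldeg ν w))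
            (max ((∑ i ∈ J ν, lamN (d i) (g i) x (w ν) / d i) / (dg x * (n + 1)))
              ((∑ w ∈ above (fld x) ν, ∑ i ∈ J ν, lamN (d i) (g i) x w / d i) / (gfam x ν * (n + 1)))) ≤
            (1 + ε) * hgt x + C * (1 + ∑ i, Height.logHeight fun m : (g i).support => (g i).coeff m)) ∧
        (InTower r x → ∑ ν ∈ S, ∑ w ∈ above (fld x) ν, ∑ i ∈ J ν, lamN (d i) (g i) x w / d i ≤
          (r * (n + 1) + ε) * hgt x + C * (1 + ∑ i, Height.logHeight fun m : (g i).support => (g i).coeff m)) := by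
  classical
  set D : ℕ := ∏ i, d i with hD
  have hD0 : 0 < D := Finset.prod_pos fun i _ => hd i
  have hDr : (0 : ℝ) < D := by exact_mod_cast hD0
  have hD1 : (1 : ℝ) ≤ D := by exact_mod_cast hD0
  have hdvd : ∀ i, d i ∣ D := fun i => Finset.dvd_prod_of_mem d (Finset.mem_univ i)
  set e : Fin q → ℕ := fun i => D / d i with he
  have hde : ∀ i, d i * e i = D := fun i => Nat.mul_div_cancel' (hdvd i)
  have he0 : ∀ i, 0 < e i := fun i => Nat.div_pos (Nat.le_of_dvd hD0 (hdvd i)) (hd i)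
  have heD : ∀ i, (e i : ℝ) ≤ D := fun i => by exact_mod_cast Nat.div_le_self _ _
  have hd1 : ∀ i, (1 : ℝ) ≤ d i := fun i => by exact_mod_cast hd i
  have hn1 : (1 : ℝ) ≤ n + 1 := by
    have : (0 : ℝ) ≤ n := Nat.cast_nonneg _
    linarith
  -- the height of a form
  obtain ⟨H, hH⟩ : ∃ H : MvPolynomial (Fin (N + 1)) k → ℝ, H = fun g : MvPolynomial (Fin (N + 1)) k =>
    Height.logHeight (fun m : g.support => g.coeff m) := ⟨_, rfl⟩
  have hH' : ∀ g : MvPolynomial (Fin (N + 1)) k, Height.logHeight (fun m : g.support => g.coeff m) = H g := fun g => by rw [hH]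
  have hH0 : ∀ g, 0 ≤ H g := fun g => by
    rw [hH]
    exact logHeight_support_nonneg g
  -- the normalised forms
  choose A hA0 hA using fun i => exists_cf k N (hde i)
  choose b cc hb hbm hc1 hcc hch using hA
  let g₀ : Fin q → MvPolynomial (Fin (N + 1)) k := fun i => X 0 ^ d i
  have hg₀ : ∀ i, (g₀ i).IsHomogeneous (d i) ∧ g₀ i ≠ 0 := fun i => ⟨by
    have := (isHomogeneous_X k (0 : Fin (N + 1))).pow (d i)
    rwa [one_mul] at this, pow_ne_zero _ (X_ne_zero _)⟩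
  let nrm : (Fin q → MvPolynomial (Fin (N + 1)) k) → Fin q → MvPolynomial (Fin (N + 1)) k := fun g i =>
    if (g i).IsHomogeneous (d i) ∧ g i ≠ 0 then g i else g₀ i
  have hnrm : ∀ g i, (nrm g i).IsHomogeneous (d i) ∧ nrm g i ≠ 0 := by
    intro g i
    show (if (g i).IsHomogeneous (d i) ∧ g i ≠ 0 then g i else g₀ i).IsHomogeneous (d i) ∧
      (if (g i).IsHomogeneous (d i) ∧ g i ≠ 0 then g i else g₀ i) ≠ 0
    split_ifs with h
    · exact h
    · exact hg₀ i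
  have hnrmH : ∀ g i, H (nrm g i) ≤ H (g i) + H (g₀ i) := by
    intro g i
    show H (if (g i).IsHomogeneous (d i) ∧ g i ≠ 0 then g i else g₀ i) ≤ _
    split_ifs with h
    · linarith [hH0 (g₀ i)]
    · linarith [hH0 (g i)]
  let cg : (Fin q → MvPolynomial (Fin (N + 1)) k) → Fin q × Mns N D → k := fun g p =>
    cc p.1 (nrm g p.1) (hnrm g p.1).1 (hnrm g p.1).2 p.2
  have hcg1 : ∀ g i, ∃ μ, cg g (i, μ) = 1 := fun g i => hc1 i (nrm g i) (hnrm g i).1 (hnrm g i).2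
  let f : (Fin q → MvPolynomial (Fin (N + 1)) k) → Fin q → MvPolynomial (Fin (N + 1)) k := fun g i =>
    (C (b i (nrm g i) (hnrm g i).1 (hnrm g i).2)⁻¹ * nrm g i) ^ e i
  have hfh : ∀ g i, (f g i).IsHomogeneous D := by
    intro g i
    have h1 := ((isHomogeneous_C (Fin (N + 1)) (b i (nrm g i) (hnrm g i).1 (hnrm g i).2)⁻¹).mul (hnrm g i).1).pow (e i)
    rwa [zero_add, hde i] at h1
  have htf : ∀ g, tfrm (cg g) = f g := by
    intro g
    rw [← tfrm_coeff (f g) (hfh g)]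
    congr 1
    funext p
    exact hcc p.1 (nrm g p.1) (hnrm g p.1).1 (hnrm g p.1).2 p.2
  have hcH : ∀ g i, hcf (cg g) i ≤ D * (H (g i) + H (g₀ i)) + A i := by
    intro g i
    have h1 := hch i (nrm g i) (hnrm g i).1 (hnrm g i).2
    rw [hH'] at h1
    have h2 : (e i : ℝ) * H (nrm g i) ≤ D * (H (g i) + H (g₀ i)) :=
      mul_le_mul (heD i) (hnrmH g i) (hH0 _) hDr.le
    exact h1.trans (by linarith)
  obtain ⟨M₁, Q₁, hQ₁, h₁⟩ := fin_lu (q := q) hD0 hr P hhom hP (ε := D * ε) (by positivity)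
  obtain ⟨M₂, Q₂, hQ₂, h₂⟩ := fin_tu (q := q) (r := r) hD0 hr P hhom hP (ε := D * ε) (by positivity)
  refine ⟨M₁ + M₂, fun g => Q₁ (cg g) * Q₂ (cg g), fun g => ⟨fun h => ?_, ?_⟩, fun S => ?_⟩
  · rcases Ideal.IsPrime.mem_or_mem ‹P.IsPrime› h with h | h
    · exact (hQ₁ _).1 h
    · exact (hQ₂ _).1 h
  · obtain ⟨-, e₁, h3, h4⟩ := hQ₁ (cg g)
    obtain ⟨-, e₂, h5, h6⟩ := hQ₂ (cg g)
    exact ⟨e₁ + e₂, add_le_add h3 h5, h4.mul h6⟩
  obtain ⟨C₁, h₁⟩ := h₁ S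
  obtain ⟨C₂, h₂⟩ := h₂ S
  obtain ⟨K, hK⟩ : ∃ K : ℝ, K = 1 + D + ∑ i, (D * H (g₀ i) + A i) := ⟨_, rfl⟩
  have hK0 : 0 ≤ K := by
    rw [hK]
    have : 0 ≤ ∑ i, (D * H (g₀ i) + A i) :=
      Finset.sum_nonneg fun i _ => add_nonneg (mul_nonneg hDr.le (hH0 _)) (hA0 i)
    positivity
  refine ⟨(max C₁ 0 + max C₂ 0) * K + 1, fun g hg J hJ x hx1 hxP hgx hQx => ?_⟩
  rw [map_mul] at hQx
  simp only [hH']
  obtain ⟨Hs, hHs⟩ : ∃ Hs : ℝ, Hs = ∑ i, H (g i) := ⟨_, rfl⟩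
  have hHs0 : 0 ≤ Hs := by
    rw [hHs]
    exact Finset.sum_nonneg fun i _ => hH0 _
  rw [← hHs]
  have hsum : 1 + ∑ i, hcf (cg g) i ≤ K * (1 + Hs) := by
    have h3 : ∑ i, hcf (cg g) i ≤ D * Hs + ∑ i, (D * H (g₀ i) + A i) := by
      refine (Finset.sum_le_sum fun i _ => hcH g i).trans (le_of_eq ?_)
      rw [hHs, Finset.mul_sum, ← Finset.sum_add_distrib]
      exact Finset.sum_congr rfl fun i _ => by ring
    have h4 : 0 ≤ ∑ i, (D * H (g₀ i) + A i) :=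
      Finset.sum_nonneg fun i _ => add_nonneg (mul_nonneg hDr.le (hH0 _)) (hA0 i)
    have h5 : K * (1 + Hs) = K + Hs + D * Hs + (∑ i, (D * H (g₀ i) + A i)) * Hs := by
      rw [hK]
      ring
    rw [h5]
    have h6 : 0 ≤ (∑ i, (D * H (g₀ i) + A i)) * Hs := mul_nonneg h4 hHs0
    have h7 : 1 + ∑ i, (D * H (g₀ i) + A i) ≤ K := by
      rw [hK]
      linarith
    linarith
  have hC : ∀ C' : ℝ, C' * (1 + ∑ i, hcf (cg g) i) ≤ max C' 0 * K * (1 + Hs) * D := by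
    intro C'
    have h3 : 0 ≤ 1 + ∑ i, hcf (cg g) i :=
      add_nonneg zero_le_one (Finset.sum_nonneg fun i _ => hcf_nonneg (hcg1 g i))
    have h4 : C' * (1 + ∑ i, hcf (cg g) i) ≤ max C' 0 * (1 + ∑ i, hcf (cg g) i) :=
      mul_le_mul_of_nonneg_right (le_max_left _ _) h3
    have h5 : max C' 0 * (1 + ∑ i, hcf (cg g) i) ≤ max C' 0 * (K * (1 + Hs)) :=
      mul_le_mul_of_nonneg_left hsum (le_max_right _ _)
    have h6 : 0 ≤ max C' 0 * (K * (1 + Hs)) := mul_nonneg (le_max_right _ _) (mul_nonneg hK0 (by linarith))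
    have h7 : max C' 0 * (K * (1 + Hs)) ≤ max C' 0 * (K * (1 + Hs)) * D := le_mul_of_one_le_right h6 hD1
    linarith
  -- the hypotheses
  have hcrd : ∀ f : MvPolynomial (Fin (N + 1)) k, ((aeval (crd x) f : fld x) : AlgebraicClosure k) =
      aeval x f := fun f => (aeval_algebraMap_apply (AlgebraicClosure k) (crd x) f).symm
  have hgx' : ∀ ν ∈ S, ∀ i ∈ J ν, aeval (crd x) (g i) ≠ 0 := fun ν hν i hi h0 => hgx ν hν i hi (by
    rw [← hcrd, h0]
    rfl)
  have hgne : ∀ ν ∈ S, ∀ i ∈ J ν, g i ≠ 0 := fun ν hν i hi h0 => hgx ν hν i hi (by rw [h0, map_zero])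
  have hnr : ∀ ν ∈ S, ∀ i ∈ J ν, nrm g i = g i := fun ν hν i hi => if_pos ⟨hg i, hgne ν hν i hi⟩
  obtain ⟨β, hβ⟩ : ∃ β : Fin q → k, β = fun i => b i (nrm g i) (hnrm g i).1 (hnrm g i).2 := ⟨_, rfl⟩
  have hβ0 : ∀ i, β i ≠ 0 := fun i => by
    rw [hβ]
    exact hb i _ _ _
  have hβm : ∀ ν ∈ S, ∀ i ∈ J ν, ∃ m ∈ (g i).support, coeff m (g i) = β i := by
    intro ν hν i hi
    have h4 := hnr ν hν i hi
    obtain ⟨m, hm, hm'⟩ := hbm i (nrm g i) (hnrm g i).1 (hnrm g i).2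
    rw [h4] at hm
    refine ⟨m, hm, ?_⟩
    rw [hβ]
    show coeff m (g i) = b i (nrm g i) (hnrm g i).1 (hnrm g i).2
    rw [← hm']
    exact congrArg (coeff m) h4.symm
  have hfg : ∀ ν ∈ S, ∀ i ∈ J ν, tfrm (cg g) i = (C (β i)⁻¹ * g i) ^ e i := by
    intro ν hν i hi
    rw [htf, hβ]
    show (C (b i (nrm g i) (hnrm g i).1 (hnrm g i).2)⁻¹ * nrm g i) ^ e i = _
    congr 2
    exact hnr ν hν i hi
  have hfx : ∀ ν ∈ S, ∀ i ∈ J ν, aeval (crd x) (tfrm (cg g) i) ≠ 0 := by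
    intro ν hν i hi
    rw [hfg ν hν i hi, map_pow, map_mul, aeval_C]
    exact pow_ne_zero _ (mul_ne_zero ((map_ne_zero _).2 (inv_ne_zero (hβ0 i))) (hgx' ν hν i hi))
  have hgp' : ∀ ν ∈ S, ∀ I ⊆ J ν, I.card = n + 1 → ∀ x : Fin (N + 1) → AlgebraicClosure k,
      (∀ p ∈ P, aeval x p = 0) → (∀ i ∈ I, aeval x (tfrm (cg g) i) = 0) → x = 0 := by
    intro ν hν I hI hIc x hx hx'
    by_contra hx0
    obtain ⟨j, hj⟩ : ∃ j, x j ≠ 0 := by
      by_contra hcon
      push Not at hcon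
      exact hx0 (funext hcon)
    have hpt : (∃ j', (fun a => (x j)⁻¹ * x a) j' = 1) ∧ ∀ f ∈ P, aeval (fun a => (x j)⁻¹ * x a) f = 0 := by
      refine ⟨⟨j, inv_mul_cancel₀ hj⟩, fun f hf => ?_⟩
      have h1 : ∀ m, aeval (fun a => (x j)⁻¹ * x a) (homogeneousComponent m f) = 0 := by
        intro m
        have h3 := homogeneousComponent_isHomogeneous m f
        rw [Pool.Agent.Helper16.SQF.aeval_hom h3, hx _ (hhom f hf m), mul_zero]
      rw [← sum_homogeneousComponent f, map_sum]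
      exact Finset.sum_eq_zero fun m _ => h1 m
    obtain ⟨i, hi, hi'⟩ := (hJ ν hν).2 I hI hIc _ hpt
    apply hi'
    have h3 := hx' i hi
    rw [hfg ν hν i (hI hi), map_pow, map_mul, aeval_C] at h3
    have h4 := pow_eq_zero_iff (he0 i).ne' |>.1 h3
    have h5 : aeval x (g i) = 0 := by
      rcases mul_eq_zero.1 h4 with h5 | h5
      · exact absurd h5 ((map_ne_zero _).2 (inv_ne_zero (hβ0 i)))
      · exact h5
    rw [Pool.Agent.Helper16.SQF.aeval_hom (hg i), h5, mul_zero]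
  have hT : ∀ ν ∈ S, n + 1 ≤ (J ν).card := fun ν hν => (hJ ν hν).1
  -- local degrees
  have hdg : (0 : ℝ) < dg x := by
    have h3 : FiniteDimensional k (fld x) := FiniteDimensional.right ℚ k (fld x)
    have h4 : 0 < finrank k (fld x) := finrank_pos
    exact_mod_cast h4
  have hdg1 : (1 : ℝ) ≤ dg x := by
    have : 0 < dg x := by exact_mod_cast hdg
    exact_mod_cast this
  have hl0 : ∀ (v : Pl k), ∀ w ∈ above (fld x) v, (0 : ℝ) < ldeg v w := by
    intro v w hw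
    exact_mod_cast Nat.pos_of_ne_zero (Pool.Agent.QP.ldeg_ne_zero hw)
  have hlsum : ∀ (v : Pl k), ∑ w ∈ above (fld x) v, (ldeg v w : ℝ) = dg x := by
    intro v
    have h1 := Pool.Agent.Helper52.Vojta.sum_ldeg (L' := fld x) v
    exact_mod_cast h1
  have hq1 : ∀ (v : Pl k), ∀ w ∈ above (fld x) v, (1 : ℝ) ≤ dg x / ldeg v w := by
    intro v w hw
    rw [le_div_iff₀ (hl0 v w hw), one_mul, ← hlsum v]
    exact Finset.single_le_sum (f := fun w => (ldeg v w : ℝ)) (fun w _ => Nat.cast_nonneg _) hw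
  -- the corrections
  obtain ⟨δ, hδ⟩ : ∃ δ : Fin q → Pl (fld x) → ℝ, δ = fun i w =>
    (Real.log (cn (g i) w) - Real.log (nv w (algebraMap k (fld x) (β i)))) / dg x / d i := ⟨_, rfl⟩
  have hδ0 : ∀ ν ∈ S, ∀ i ∈ J ν, ∀ w : Pl (fld x), 0 ≤ δ i w := by
    intro ν hν i hi w
    rw [hδ]
    obtain ⟨m, hm, hm'⟩ := hβm ν hν i hi
    have h3 := cn_ge (L := fld x) (g i) hm w
    rw [hm'] at h3
    have h4 := Real.log_le_log (nv_pos w ((map_ne_zero (algebraMap k (fld x))).2 (hβ0 i))) h3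
    exact div_nonneg (div_nonneg (by linarith) hdg.le) (Nat.cast_nonneg _)
  have hδs : ∀ ν ∈ S, ∀ i ∈ J ν, ∑ w ∈ above (fld x) ν, δ i w = (Real.log (cn (g i) ν) - Real.log (nv ν (β i))) / d i := by
    intro ν hν i hi
    rw [hδ]
    simp only
    rw [← Finset.sum_div, ← Finset.sum_div, Finset.sum_sub_distrib, sum_cn_above (L := fld x) (hgne ν hν i hi) ν,
      Pool.Agent.Helper52.Vojta.sum_log_nv (L' := fld x) ν (β i)]
    have h3 : (finrank k (fld x) : ℝ) = dg x := rfl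
    rw [h3]
    field_simp
  have hraw : ∀ ν ∈ S, ∀ w : Pl (fld x), ∑ i ∈ J ν, lamW D (tfrm (cg g) i) x w =
      D * (∑ i ∈ J ν, lamN (d i) (g i) x w / d i - ∑ i ∈ J ν, δ i w) := by
    intro ν hν w
    rw [← Finset.sum_sub_distrib, Finset.mul_sum]
    refine Finset.sum_congr rfl fun i hi => ?_
    rw [hfg ν hν i hi, lam_f (hd i) (he0 i) (hde i) (g i) (hβ0 i) x (hgx' ν hν i hi) w, hδ]
  have hδ1 : ∀ ν ∈ S, ∀ w : Pl (fld x), 0 ≤ ∑ i ∈ J ν, δ i w := fun ν hν w =>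
    Finset.sum_nonneg fun i hi => hδ0 ν hν i hi w
  obtain ⟨Δ, hΔ⟩ : ∃ Δ : Pl k → ℝ, Δ = fun ν => ∑ w ∈ above (fld x) ν, ∑ i ∈ J ν, δ i w := ⟨_, rfl⟩
  have hΔ0 : ∀ ν ∈ S, 0 ≤ Δ ν := by
    intro ν hν
    rw [hΔ]
    exact Finset.sum_nonneg fun w _ => hδ1 ν hν w
  have hδΔ : ∀ ν ∈ S, ∀ w ∈ above (fld x) ν, ∑ i ∈ J ν, δ i w ≤ Δ ν := by
    intro ν hν w hw
    rw [hΔ]
    exact Finset.single_le_sum (f := fun w => ∑ i ∈ J ν, δ i w) (fun w _ => hδ1 ν hν w) hw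
  have hΔs : ∑ ν ∈ S, Δ ν ≤ Hs := by
    have h3 : ∀ ν ∈ S, Δ ν ≤ ∑ i, if i ∈ J ν then Real.log (cn (g i) ν) - Real.log (nv ν (β i)) else 0 := by
      intro ν hν
      rw [hΔ]
      simp only
      rw [Finset.sum_comm, Finset.sum_ite_mem, Finset.univ_inter]
      refine Finset.sum_le_sum fun i hi => ?_
      rw [hδs ν hν i hi]
      obtain ⟨m, hm, hm'⟩ := hβm ν hν i hi
      have h3 := cn_ge (L := k) (g i) hm ν
      rw [hm'] at h3
      have h4 := Real.log_le_log (nv_pos ν ((map_ne_zero (algebraMap k k)).2 (hβ0 i))) h3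
      rw [Algebra.algebraMap_self, RingHom.id_apply] at h4
      exact div_le_self (by linarith) (hd1 i)
    refine (Finset.sum_le_sum h3).trans ?_
    rw [Finset.sum_comm, hHs]
    refine Finset.sum_le_sum fun i _ => ?_
    rw [← Finset.sum_filter]
    by_cases hne : (S.filter fun ν => i ∈ J ν).Nonempty
    · obtain ⟨ν, hν⟩ := hne
      obtain ⟨hν1, hν2⟩ := Finset.mem_filter.1 hν
      obtain ⟨m, hm, hm'⟩ := hβm ν hν1 i hν2
      have h4 := sum_cn_le hm (S.filter fun ν => i ∈ J ν)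
      rw [hH', hm'] at h4
      exact h4
    · rw [Finset.not_nonempty_iff_eq_empty] at hne
      rw [hne, Finset.sum_empty]
      exact hH0 _
  have hP2 : ∀ ν ∈ S, ∑ i ∈ J ν, lamP D (tfrm (cg g) i) ν x =
      D * (∑ w ∈ above (fld x) ν, ∑ i ∈ J ν, lamN (d i) (g i) x w / d i - Δ ν) := by
    intro ν hν
    rw [hΔ]
    simp only
    rw [← Finset.sum_sub_distrib, Finset.mul_sum, ← Finset.sum_congr rfl fun w _ => hraw ν hν w, Finset.sum_comm]
    refine Finset.sum_congr rfl fun i _ => ?_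
    exact Finset.sum_div _ _ _
  have hfin : ∀ (C' X Y : ℝ), X ≤ D * Y + C' * (1 + ∑ i, hcf (cg g) i) →
      X / D ≤ Y + max C' 0 * K * (1 + Hs) := by
    intro C' X Y h3
    rw [div_le_iff₀ hDr]
    have h4 := hC C'
    have h5 : (Y + max C' 0 * K * (1 + Hs)) * D = D * Y + max C' 0 * K * (1 + Hs) * D := by ring
    rw [h5]
    linarith
  have hm1 : 0 ≤ max C₁ 0 * K * (1 + Hs) := mul_nonneg (mul_nonneg (le_max_right _ _) hK0) (by linarith)
  have hm2 : 0 ≤ max C₂ 0 * K * (1 + Hs) := mul_nonneg (mul_nonneg (le_max_right _ _) hK0) (by linarith)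
  have hm3 : ((max C₁ 0 + max C₂ 0) * K + 1) * (1 + Hs) =
      max C₁ 0 * K * (1 + Hs) + max C₂ 0 * K * (1 + Hs) + 1 + Hs := by ring
  rw [hm3]
  refine ⟨fun hdr w hw => ?_, fun ht => ?_⟩
  · have h3 := h₁ (cg g) (hcg1 g) J hT hgp' x hx1 hxP hdr hfx (left_ne_zero_of_mul hQx) w hw
    have h4 : ((D : ℝ) + D * ε) * hgt x = D * ((1 + ε) * hgt x) := by ring
    rw [h4] at h3
    have h5 := hfin C₁ _ _ h3
    have h6 : ∀ ν ∈ S, max (∑ w ∈ above (fld x) ν, (∑ i ∈ J ν, lamN (d i) (g i) x w / d i) * cnq n (dg x / ldeg ν w))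
            (max ((∑ i ∈ J ν, lamN (d i) (g i) x (w ν) / d i) / (dg x * (n + 1)))
              ((∑ w ∈ above (fld x) ν, ∑ i ∈ J ν, lamN (d i) (g i) x w / d i) / (gfam x ν * (n + 1)))) ≤
        max (∑ w ∈ above (fld x) ν, cnq n (dg x / ldeg ν w) * ∑ i ∈ J ν, lamW D (tfrm (cg g) i) x w)
          (max ((∑ i ∈ J ν, lamW D (tfrm (cg g) i) x (w ν)) / (dg x * (n + 1)))
            ((∑ i ∈ J ν, lamP D (tfrm (cg g) i) ν x) / (gfam x ν * (n + 1)))) / D + Δ ν := by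
      intro ν hν
      have hW : ∀ w : Pl (fld x), ∑ i ∈ J ν, lamN (d i) (g i) x w / d i =
          (∑ i ∈ J ν, lamW D (tfrm (cg g) i) x w) / D + ∑ i ∈ J ν, δ i w := by
        intro w
        rw [hraw ν hν w, mul_div_cancel_left₀ _ hDr.ne']
        ring
      have hW2 : ∑ w ∈ above (fld x) ν, ∑ i ∈ J ν, lamN (d i) (g i) x w / d i =
          (∑ i ∈ J ν, lamP D (tfrm (cg g) i) ν x) / D + Δ ν := by
        rw [hP2 ν hν, mul_div_cancel_left₀ _ hDr.ne']
        ring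
      refine max3 hDr ?_ ?_ ?_
      · rw [Finset.sum_div, hΔ]
        simp only
        rw [← Finset.sum_add_distrib]
        refine Finset.sum_le_sum fun w hw => ?_
        have h7 := cnq_le (n := n) (hq1 ν w hw)
        have h8 := cnq_pos (n := n) (hq1 ν w hw)
        have h9 : cnq n (dg x / ldeg ν w) ≤ 1 := h7.trans (div_le_one_of_le₀ hn1 (by linarith))
        rw [hW w, add_mul]
        have h10 : (∑ i ∈ J ν, δ i w) * cnq n (dg x / ldeg ν w) ≤ (∑ i ∈ J ν, δ i w) * 1 :=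
          mul_le_mul_of_nonneg_left h9 (hδ1 ν hν w)
        have h11 : (∑ i ∈ J ν, lamW D (tfrm (cg g) i) x w) / D * cnq n (dg x / ldeg ν w) =
            cnq n (dg x / ldeg ν w) * (∑ i ∈ J ν, lamW D (tfrm (cg g) i) x w) / D := by ring
        rw [h11]
        linarith
      · have h7 : (1 : ℝ) ≤ dg x * (n + 1) := one_le_mul_of_one_le_of_one_le hdg1 hn1
        rw [hW (w ν), add_div, div_right_comm]
        refine add_le_add le_rfl ((div_le_self (hδ1 ν hν _) h7).trans (hδΔ ν hν _ (hw ν)))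
      · rw [hW2, add_div, div_right_comm]
        refine add_le_add le_rfl ?_
        rcases Nat.eq_zero_or_pos (gfam x ν) with h7 | h7
        · rw [h7, Nat.cast_zero, zero_mul, div_zero]
          exact hΔ0 ν hν
        · have h8 : (1 : ℝ) ≤ gfam x ν := by exact_mod_cast h7
          exact div_le_self (hΔ0 ν hν) (one_le_mul_of_one_le_of_one_le h8 hn1)
    refine (Finset.sum_le_sum h6).trans ?_
    rw [Finset.sum_add_distrib, ← Finset.sum_div]
    linarith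
  · have h3 := h₂ (cg g) (hcg1 g) J hT hgp' x hx1 hxP ht hfx (right_ne_zero_of_mul hQx)
    have h4 : ((r : ℝ) * (n + 1) * D + D * ε) * hgt x = D * ((r * (n + 1) + ε) * hgt x) := by ring
    rw [h4] at h3
    have h5 := hfin C₂ _ _ h3
    have h6 : ∑ ν ∈ S, ∑ w ∈ above (fld x) ν, ∑ i ∈ J ν, lamN (d i) (g i) x w / d i =
        (∑ ν ∈ S, ∑ i ∈ J ν, lamP D (tfrm (cg g) i) ν x) / D + ∑ ν ∈ S, Δ ν := by
      rw [Finset.sum_div, ← Finset.sum_add_distrib]
      refine Finset.sum_congr rfl fun ν hν => ?_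
      rw [hP2 ν hν, mul_div_cancel_left₀ _ hDr.ne']
      ring
    rw [h6]
    linarith

end Pool.Agent.SQ
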